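import Pool.Agent.Helper73.BP.StartGood

/-!
# A matching of users to rows with a demand for every colour
-/

set_option autoImplicit false
set_option linter.unusedSectionVars false

namespace Pool.Agent.Helper50.VT

open Pool.Agent.Helper73.BP

/-- Every user `x` has the rows `row x c`, `c ∈ av x`; rows of different colours are different; if
every user sends `1 / |av x|` to each of its rows, every row gets at most one and every colour of
`U0` at least `D`.  Then the users can be matched to different rows so that every colour of `U0`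
is used at least `D` times. -/
theorem demand_match {X K C : Type} [Fintype X] [DecidableEq X] [Fintype K] [DecidableEq K]
    [DecidableEq C] (U0 : Finset C) (av : X → Finset C) (hav : ∀ x, av x ⊆ U0)
    (hne : ∀ x, (av x).Nonempty) (row : X → C → K)
    (hcol : ∀ x y, ∀ c ∈ av x, ∀ d ∈ av y, row x c = row y d → c = d)
    (hload : ∀ k c, ∑ y ∈ Finset.univ.filter (fun y : X => c ∈ av y ∧ row y c = k),
      (1 : ℚ) / ((av y).card : ℚ) ≤ 1)
    (D : ℕ)
    (hD : ∀ c ∈ U0, (D : ℚ) ≤ ∑ x ∈ Finset.univ.filter (fun x : X => c ∈ av x),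
      (1 : ℚ) / ((av x).card : ℚ)) :
    ∃ b : X → C, (∀ x, b x ∈ av x) ∧ (Function.Injective fun x => row x (b x)) ∧
      ∀ c ∈ U0, D ≤ (Finset.univ.filter (fun x => b x = c)).card := by
  classical
  set w : X → ℚ := fun x => (1 : ℚ) / ((av x).card : ℚ) with hw
  have hw0 : ∀ x, 0 ≤ w x := fun x => by simp only [hw]; positivity
  set W : C → Finset X → ℚ := fun c Y => ∑ x ∈ Y.filter (fun x => c ∈ av x), w x with hW
  set B : C → Finset X → Finset K := fun c Y =>
    (Y.filter (fun x => c ∈ av x)).image (fun x => row x c) with hB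
  have hmB : ∀ c Y k, k ∈ B c Y ↔ ∃ x ∈ Y, c ∈ av x ∧ row x c = k := by
    intro c Y k
    simp only [hB, Finset.mem_image, Finset.mem_filter]
    constructor
    · rintro ⟨x, ⟨h1, h2⟩, h3⟩
      exact ⟨x, h1, h2, h3⟩
    · rintro ⟨x, h1, h2, h3⟩
      exact ⟨x, ⟨h1, h2⟩, h3⟩
  -- the load of one colour
  have s1 : ∀ c Y, W c Y ≤ ((B c Y).card : ℚ) := by
    intro c Y
    have h1 : W c Y = ∑ k ∈ B c Y, ∑ x ∈ (Y.filter (fun x => c ∈ av x)).filter
        (fun x => row x c = k), w x := by
      simp only [hW]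
      rw [Finset.sum_fiberwise_of_maps_to]
      intro x hx
      exact Finset.mem_image_of_mem _ hx
    rw [h1]
    calc ∑ k ∈ B c Y, ∑ x ∈ (Y.filter (fun x => c ∈ av x)).filter (fun x => row x c = k), w x
        ≤ ∑ _k ∈ B c Y, (1 : ℚ) := by
          refine Finset.sum_le_sum fun k _ => ?_
          refine le_trans ?_ (hload k c)
          refine Finset.sum_le_sum_of_subset_of_nonneg ?_ (fun x _ _ => hw0 x)
          intro x hx
          rw [Finset.mem_filter, Finset.mem_filter] at hx
          exact Finset.mem_filter.mpr ⟨Finset.mem_univ _, hx.1.2, hx.2⟩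
      _ = ((B c Y).card : ℚ) := by rw [Finset.sum_const, nsmul_eq_mul, mul_one]
  have hWif : ∀ c (Z : Finset X), W c Z = ∑ x ∈ Z, if c ∈ av x then w x else 0 := fun c Z =>
    Finset.sum_filter _ _
  -- all colours together
  have s4 : ∀ Y : Finset X, ∑ c ∈ U0, W c Y = (Y.card : ℚ) := by
    intro Y
    simp only [hWif]
    rw [Finset.sum_comm]
    have h2 : ∀ x ∈ Y, ∑ c ∈ U0, (if c ∈ av x then w x else 0) = 1 := by
      intro x _
      rw [← Finset.sum_filter]
      have h3 : U0.filter (fun c => c ∈ av x) = av x := by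
        apply Finset.ext
        intro c
        rw [Finset.mem_filter]
        exact ⟨fun h => h.2, fun h => ⟨hav x h, h⟩⟩
      rw [h3, Finset.sum_const, nsmul_eq_mul]
      have h4 : ((av x).card : ℚ) ≠ 0 := by
        have := (hne x).card_pos
        positivity
      simp only [hw]
      rw [mul_one_div, div_self h4]
    rw [Finset.sum_congr rfl h2, Finset.sum_const, nsmul_eq_mul, mul_one]
  have hWadd : ∀ c (Y : Finset X), W c Finset.univ = W c Y + W c (Finset.univ \ Y) := by
    intro c Y
    rw [hWif, hWif, hWif, add_comm, Finset.sum_sdiff (Finset.subset_univ Y)]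
  have hW0 : ∀ c (Y : Finset X), 0 ≤ W c Y := fun c Y => Finset.sum_nonneg fun x _ => hw0 x
  have hXK : U0.card * D ≤ Fintype.card X := by
    have h1 : ∑ c ∈ U0, (D : ℚ) ≤ ∑ c ∈ U0, W c Finset.univ := Finset.sum_le_sum fun c hc =>
      hD c hc
    rw [s4, Finset.sum_const, nsmul_eq_mul, Finset.card_univ] at h1
    exact_mod_cast h1
  -- rows of different colours are different
  have hBsum : ∀ (C1 : Finset C) (Y : Finset X),
      ∑ c ∈ C1, (B c Y).card = (C1.biUnion (fun c => B c Y)).card := by
    intro C1 Y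
    rw [Finset.card_biUnion]
    intro c _ d _ hcd
    rw [Function.onFun, Finset.disjoint_left]
    intro k hk hk'
    obtain ⟨x, -, h1, h2⟩ := (hmB c Y k).mp hk
    obtain ⟨y, -, h3, h4⟩ := (hmB d Y k).mp hk'
    exact hcd (hcol x y c h1 d h3 (h2.trans h4.symm))
  have s5 : ∀ (C1 : Finset C) (Y : Finset X),
      ∑ c ∈ C1, W c Y ≤ ((C1.biUnion (fun c => B c Y)).card : ℚ) := by
    intro C1 Y
    rw [← hBsum]
    push_cast
    exact Finset.sum_le_sum fun c _ => s1 c Y
  set F : ℕ := Fintype.card X - U0.card * D with hF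
  set inc : X → Finset K := fun x => (av x).image (row x) with hinc
  have hminc : ∀ x k, k ∈ inc x ↔ ∃ c ∈ av x, row x c = k := fun x k => by
    simp only [hinc, Finset.mem_image]
  set colr : K → Finset C := fun k => U0.filter (fun c => ∃ x, c ∈ av x ∧ row x c = k) with hcolr
  have hmcolr : ∀ k c, c ∈ colr k ↔ c ∈ U0 ∧ ∃ x, c ∈ av x ∧ row x c = k := fun k c => by
    simp only [hcolr, Finset.mem_filter]
  set adj : K → Finset ((C × ℕ) ⊕ ℕ) := fun k =>
    ((colr k) ×ˢ Finset.range D).disjSum (Finset.range F) with hadj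
  obtain ⟨kk, H, hk1, hk2, hk3, hk4⟩ := two_level inc adj (by
    intro Y R
    rcases R.eq_empty_or_nonempty with rfl | ⟨k0, hk0⟩
    · -- no rows removed
      rw [Finset.sdiff_empty, Finset.biUnion_empty, Finset.card_empty, add_zero]
      have h1 : (Y.card : ℚ) ≤ ((U0.biUnion (fun c => B c Y)).card : ℚ) := by
        rw [← s4 Y]
        exact s5 U0 Y
      have h2 : U0.biUnion (fun c => B c Y) ⊆ Y.biUnion inc := by
        intro k hk
        obtain ⟨c, -, hk⟩ := Finset.mem_biUnion.mp hk
        obtain ⟨x, hx, h3, h4⟩ := (hmB c Y k).mp hk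
        exact Finset.mem_biUnion.mpr ⟨x, hx, (hminc x k).mpr ⟨c, h3, h4⟩⟩
      have h3 : Y.card ≤ (U0.biUnion (fun c => B c Y)).card := by exact_mod_cast h1
      exact h3.trans (Finset.card_le_card h2)
    · set CR : Finset C := R.biUnion colr with hCR
      have hCRU : CR ⊆ U0 := by
        intro c hc
        obtain ⟨k, -, hk⟩ := Finset.mem_biUnion.mp hc
        exact ((hmcolr k c).mp hk).1
      have e1 : (CR ×ˢ Finset.range D).disjSum (Finset.range F) ⊆ R.biUnion adj := by
        intro v hv
        rw [Finset.mem_disjSum] at hv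
        rw [Finset.mem_biUnion]
        rcases hv with ⟨p, hp, rfl⟩ | ⟨i, hi, rfl⟩
        · rw [Finset.mem_product] at hp
          obtain ⟨k, hk, hck⟩ := Finset.mem_biUnion.mp hp.1
          refine ⟨k, hk, ?_⟩
          simp only [hadj]
          rw [Finset.mem_disjSum]
          exact Or.inl ⟨p, Finset.mem_product.mpr ⟨hck, hp.2⟩, rfl⟩
        · refine ⟨k0, hk0, ?_⟩
          simp only [hadj]
          rw [Finset.mem_disjSum]
          exact Or.inr ⟨i, hi, rfl⟩
      have e2 := Finset.card_le_card e1
      rw [Finset.card_disjSum, Finset.card_product, Finset.card_range, Finset.card_range] at e2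
      -- the colours not in R
      have e3 : (U0 \ CR).biUnion (fun c => B c Y) ⊆ Y.biUnion inc \ R := by
        intro k hk
        obtain ⟨c, hc, hk⟩ := Finset.mem_biUnion.mp hk
        obtain ⟨x, hx, h3, h4⟩ := (hmB c Y k).mp hk
        rw [Finset.mem_sdiff] at hc ⊢
        refine ⟨Finset.mem_biUnion.mpr ⟨x, hx, (hminc x k).mpr ⟨c, h3, h4⟩⟩, fun hR => hc.2 ?_⟩
        exact Finset.mem_biUnion.mpr ⟨k, hR, (hmcolr k c).mpr ⟨hc.1, x, h3, h4⟩⟩
      have e4 : ((U0 \ CR).card : ℚ) * D ≤
          (Y.biUnion inc \ R).card + ((Finset.univ \ Y).card : ℚ) := by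
        calc ((U0 \ CR).card : ℚ) * D = ∑ _c ∈ U0 \ CR, (D : ℚ) := by
              rw [Finset.sum_const, nsmul_eq_mul]
          _ ≤ ∑ c ∈ U0 \ CR, W c Finset.univ := Finset.sum_le_sum fun c hc =>
              hD c (Finset.mem_sdiff.mp hc).1
          _ = ∑ c ∈ U0 \ CR, W c Y + ∑ c ∈ U0 \ CR, W c (Finset.univ \ Y) := by
              rw [← Finset.sum_add_distrib]
              exact Finset.sum_congr rfl fun c _ => hWadd c Y
          _ ≤ ((Y.biUnion inc \ R).card : ℚ) + ((Finset.univ \ Y).card : ℚ) := by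
              refine add_le_add ?_ ?_
              · refine le_trans (s5 _ Y) ?_
                exact_mod_cast Finset.card_le_card e3
              · rw [← s4 (Finset.univ \ Y)]
                exact Finset.sum_le_sum_of_subset_of_nonneg Finset.sdiff_subset
                  (fun c _ _ => hW0 c _)
      have e5 : (U0 \ CR).card * D ≤ (Y.biUnion inc \ R).card + (Finset.univ \ Y).card := by
        exact_mod_cast e4
      have e6 : (Finset.univ \ Y).card + Y.card = Fintype.card X := by
        rw [Finset.card_sdiff_add_card_eq_card (Finset.subset_univ Y), Finset.card_univ]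
      have e7 : (U0 \ CR).card + CR.card = U0.card := Finset.card_sdiff_add_card_eq_card hCRU
      have e8 : (U0 \ CR).card * D + CR.card * D = U0.card * D := by rw [← e7, Nat.add_mul]
      omega)
  have hb : ∀ x, ∃ c ∈ av x, row x c = kk x := fun x => (hminc x _).mp (hk3 x)
  choose b hb1 hb2 using hb
  refine ⟨b, hb1, fun x y e => hk1 (by rw [← hb2 x, ← hb2 y]; exact e), ?_⟩
  -- all slots are used
  set S : Finset ((C × ℕ) ⊕ ℕ) := (U0 ×ˢ Finset.range D).disjSum (Finset.range F) with hS
  have hScard : S.card = Fintype.card X := by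
    rw [hS, Finset.card_disjSum, Finset.card_product, Finset.card_range, Finset.card_range]
    omega
  have hHS : ∀ x, H x ∈ S := by
    intro x
    have h1 := hk4 x
    simp only [hadj] at h1
    rw [Finset.mem_disjSum] at h1
    rw [hS, Finset.mem_disjSum]
    rcases h1 with ⟨p, hp, e⟩ | h1
    · rw [Finset.mem_product] at hp
      exact Or.inl ⟨p, Finset.mem_product.mpr ⟨((hmcolr _ _).mp hp.1).1, hp.2⟩, e⟩
    · exact Or.inr h1
  have himg : Finset.univ.image H = S := by
    apply Finset.eq_of_subset_of_card_le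
    · intro v hv
      obtain ⟨x, -, rfl⟩ := Finset.mem_image.mp hv
      exact hHS x
    · rw [hScard, Finset.card_image_of_injective _ hk2, Finset.card_univ]
  intro c hc
  have hex : ∀ t ∈ Finset.range D, ∃ x, H x = Sum.inl (c, t) := by
    intro t ht
    have h1 : (Sum.inl (c, t) : (C × ℕ) ⊕ ℕ) ∈ S := by
      rw [hS, Finset.mem_disjSum]
      exact Or.inl ⟨(c, t), Finset.mem_product.mpr ⟨hc, ht⟩, rfl⟩
    rw [← himg] at h1
    obtain ⟨x, -, e⟩ := Finset.mem_image.mp h1
    exact ⟨x, e⟩
  rcases Nat.eq_zero_or_pos D with hD0 | hD0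
  · rw [hD0]
    exact Nat.zero_le _
  have : Nonempty X := ⟨(hex 0 (Finset.mem_range.mpr hD0)).choose⟩
  choose! f hf using hex
  calc D = (Finset.range D).card := (Finset.card_range D).symm
    _ ≤ _ := by
      refine Finset.card_le_card_of_injOn f ?_ ?_
      · intro t ht
        refine Finset.mem_coe.mpr (Finset.mem_filter.mpr ⟨Finset.mem_univ _, ?_⟩)
        have h1 := hk4 (f t)
        rw [hf t ht] at h1
        simp only [hadj] at h1
        rw [Finset.mem_disjSum] at h1
        rcases h1 with ⟨p, hp, e⟩ | ⟨i, -, e⟩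
        · have e2 : p = (c, t) := Sum.inl_injective e
          rw [Finset.mem_product, e2] at hp
          obtain ⟨-, x', h3, h4⟩ := (hmcolr _ _).mp hp.1
          exact hcol (f t) x' (b (f t)) (hb1 _) c h3 ((hb2 (f t)).trans h4.symm)
        · cases e
      · intro t ht t' ht' e
        have h1 : (Sum.inl (c, t) : (C × ℕ) ⊕ ℕ) = Sum.inl (c, t') := by
          rw [← hf t ht, ← hf t' ht', e]
        exact (Prod.mk.inj (Sum.inl_injective h1)).2

end Pool.Agent.Helper50.VT
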