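import Pool.Agent.Helper50.VT.V
import Pool.Agent.Helper50.VT.Demand

/-!
# Rank four: a plane with many points
-/

set_option autoImplicit false
set_option linter.unusedSectionVars false

namespace Pool.Agent.Helper50.VT

open Pool.Agent.Helper28.BPack Pool.Agent.Helper61.Motz Pool.Agent.Helper38.Thick
  Pool.Agent.Helper38.SC Pool.Agent.Helper56.BP Pool.Agent.Helper73.BP

variable {L : Type} [Lattice L] [BoundedOrder L] [Finite L] [IsUpperModularLattice L]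

section

variable [DecidableEq L] [DecidableRel (α := L) (· ≤ ·)]

/-- The rows of the points of a plane `P` over `u`, with `D` rows of every colour. -/
theorem exists_beta {A U0 : Finset L} (hA : ∀ a ∈ A, IsAtom a) {u P o : L} (hu : rk u = 2)
    (hU2 : 2 ≤ U0.card) (hUA : ∀ c ∈ U0, c ∈ A ∧ c ≤ u)
    (hoA : o ∈ A) (hou : ¬ o ≤ u)
    (hrow : ∀ y ∈ A, y ≤ P → ¬ y ≤ u → ∀ c ∈ U0, ¬ o ≤ y ⊔ c →
      (A.filter (· ≤ y ⊔ c)).card ≤ U0.card)
    (D : ℕ)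
    (hD : ∀ c ∈ U0, U0.card * (U0.card - 1) * D ≤
      U0.card * (A.filter (fun y => y ≤ P ∧ ¬ y ≤ u ∧ ¬ y ≤ o ⊔ c ∧ ∃ d ∈ U0, y ≤ o ⊔ d)).card +
      (U0.card - 1) * (A.filter (fun y => y ≤ P ∧ ¬ y ≤ u ∧ ∀ d ∈ U0, ¬ y ≤ o ⊔ d)).card) :
    ∃ β : L → L,
      (∀ y ∈ A, y ≤ P → ¬ y ≤ u → y ≠ o → β y ∈ U0 ∧ ¬ o ≤ y ⊔ β y) ∧
      (∀ y ∈ A, y ≤ P → ¬ y ≤ u → y ≠ o → ∀ z ∈ A, z ≤ P → ¬ z ≤ u → z ≠ o →
        y ⊔ β y = z ⊔ β z → y = z) ∧
      (∀ c ∈ U0, D ≤ (A.filter (fun y => y ≤ P ∧ ¬ y ≤ u ∧ y ≠ o ∧ β y = c)).card) := by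
  classical
  have : Fintype L := Fintype.ofFinite L
  set X0 : Finset L := A.filter (fun y => y ≤ P ∧ ¬ y ≤ u ∧ y ≠ o) with hX0
  have hX : ∀ y, y ∈ X0 ↔ y ∈ A ∧ y ≤ P ∧ ¬ y ≤ u ∧ y ≠ o := fun y => by
    rw [hX0, Finset.mem_filter]
  have hne : ∀ y, ¬ y ≤ u → ∀ c ∈ U0, y ≠ c := fun y hy c hc e => hy (e ▸ (hUA c hc).2)
  have hrk : ∀ y ∈ A, ¬ y ≤ u → ∀ c ∈ U0, rk (y ⊔ c) = 2 := fun y hy hyu c hc =>
    rk_line (hA y hy) (hA c (hUA c hc).1) (hne y hyu c hc)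
  have hcol : ∀ y ∈ A, ¬ y ≤ u → ∀ c ∈ U0, ∀ d ∈ U0, d ≤ y ⊔ c → c = d := by
    intro y hy hyu c hc d hd h
    by_contra hcd
    have h1 := line_two (hA c (hUA c hc).1) (hA d (hUA d hd).1) hcd
      (le_sup_right : c ≤ y ⊔ c) h (hrk y hy hyu c hc) (hUA c hc).2 (hUA d hd).2 hu
    exact hyu (h1 ▸ le_sup_left)
  -- the exchange `y` on `o ⊔ d` iff `o` on `y ⊔ d`
  have hex : ∀ y ∈ A, ¬ y ≤ u → ∀ d ∈ U0, (y ≤ o ⊔ d ↔ o ≤ y ⊔ d) := by
    intro y hy hyu d hd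
    constructor
    · intro h
      have h1 := line_of (hA y hy) (hA d (hUA d hd).1) (hne y hyu d hd) h le_sup_right
        (hrk o hoA hou d hd)
      rw [h1]
      exact le_sup_left
    · intro h
      have h1 := line_of (hA o hoA) (hA d (hUA d hd).1) (hne o hou d hd) h le_sup_right
        (hrk y hy hyu d hd)
      rw [h1]
      exact le_sup_left
  let X := {y : L // y ∈ X0}
  let av : X → Finset L := fun y => U0.filter (fun c => ¬ o ≤ y.1 ⊔ c)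
  have hav : ∀ (y : X) c, c ∈ av y ↔ c ∈ U0 ∧ ¬ o ≤ y.1 ⊔ c := fun y c => by
    simp only [av, Finset.mem_filter]
  have hsplit : ∀ y : X, (U0.filter (fun c => o ≤ y.1 ⊔ c)).card + (av y).card = U0.card :=
    fun y => Finset.card_filter_add_card_filter_not _
  have hle1 : ∀ y : X, (U0.filter (fun c => o ≤ y.1 ⊔ c)).card ≤ 1 := by
    intro y
    obtain ⟨h1, h2, h3, h4⟩ := (hX y.1).mp y.2
    rw [Finset.card_le_one]
    intro c hc d hd
    rw [Finset.mem_filter] at hc hd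
    have e1 := line_two (hA y.1 h1) (hA o hoA) h4 (le_sup_left : y.1 ≤ y.1 ⊔ c) hc.2
      (hrk y.1 h1 h3 c hc.1) (le_sup_left : y.1 ≤ y.1 ⊔ d) hd.2 (hrk y.1 h1 h3 d hd.1)
    exact hcol y.1 h1 h3 c hc.1 d hd.1 (e1 ▸ le_sup_right)
  have havge : ∀ y : X, U0.card - 1 ≤ (av y).card := fun y => by
    have := hsplit y
    have := hle1 y
    omega
  have hK1 : (0 : ℚ) < ((U0.card - 1 : ℕ) : ℚ) := by
    have : 0 < U0.card - 1 := by omega
    exact_mod_cast this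
  have hK0 : (0 : ℚ) < ((U0.card : ℕ) : ℚ) := by
    have : 0 < U0.card := by omega
    exact_mod_cast this
  have havpos : ∀ y : X, (0 : ℚ) < ((av y).card : ℚ) := fun y =>
    lt_of_lt_of_le hK1 (by exact_mod_cast havge y)
  obtain ⟨b, hb1, hb2, hb3⟩ := demand_match (X := X) (K := L) (C := L) U0 av
    (fun y => Finset.filter_subset _ _)
    (fun y => Finset.card_pos.mp (by have := havge y; omega))
    (fun y c => y.1 ⊔ c)
    (by
      intro y z c hc d hd e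
      obtain ⟨h1, h2, h3, h4⟩ := (hX y.1).mp y.2
      have e' : y.1 ⊔ c = z.1 ⊔ d := e
      exact hcol y.1 h1 h3 c ((hav y c).mp hc).1 d ((hav z d).mp hd).1 (e' ▸ le_sup_right))
    (by
      intro k c
      set S := Finset.univ.filter (fun y : X => c ∈ av y ∧ y.1 ⊔ c = k) with hS
      rcases S.eq_empty_or_nonempty with h0 | ⟨y0, hy0⟩
      · rw [h0, Finset.sum_empty]
        exact zero_le_one
      · rw [hS, Finset.mem_filter] at hy0
        obtain ⟨-, hy1, hy2⟩ := hy0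
        obtain ⟨hcU, hoy⟩ := (hav y0 c).mp hy1
        obtain ⟨h1, h2, h3, h4⟩ := (hX y0.1).mp y0.2
        have h5 := hrow y0.1 h1 h2 h3 c hcU hoy
        rw [hy2] at h5
        have hsub : insert c (S.image Subtype.val) ⊆ A.filter (· ≤ k) := by
          intro z hz
          rw [Finset.mem_insert, Finset.mem_image] at hz
          rw [Finset.mem_filter]
          rcases hz with rfl | ⟨x, hx, rfl⟩
          · exact ⟨(hUA z hcU).1, hy2 ▸ le_sup_right⟩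
          · rw [hS, Finset.mem_filter] at hx
            exact ⟨((hX x.1).mp x.2).1, hx.2.2 ▸ le_sup_left⟩
        have hnot : c ∉ S.image Subtype.val := by
          intro h
          obtain ⟨x, -, e⟩ := Finset.mem_image.mp h
          exact ((hX x.1).mp x.2).2.2.1 (e ▸ (hUA c hcU).2)
        have h6 := Finset.card_le_card hsub
        rw [Finset.card_insert_of_notMem hnot, Finset.card_image_of_injective _
          Subtype.val_injective] at h6
        have h7 : S.card ≤ U0.card - 1 := by omega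
        calc ∑ y ∈ S, (1 : ℚ) / ((av y).card : ℚ)
            ≤ ∑ _y ∈ S, (1 : ℚ) / ((U0.card - 1 : ℕ) : ℚ) := by
              refine Finset.sum_le_sum fun y _ => ?_
              exact one_div_le_one_div_of_le hK1 (by exact_mod_cast havge y)
          _ = (S.card : ℚ) * (1 / ((U0.card - 1 : ℕ) : ℚ)) := by
              rw [Finset.sum_const, nsmul_eq_mul]
          _ ≤ 1 := by
              rw [mul_one_div, div_le_one hK1]
              exact_mod_cast h7)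
    D
    (by
      intro c hc
      obtain ⟨Fa, hFa⟩ : ∃ Fa : Finset L, Fa =
        A.filter (fun y => y ≤ P ∧ ¬ y ≤ u ∧ ¬ y ≤ o ⊔ c ∧ ∃ d ∈ U0, y ≤ o ⊔ d) := ⟨_, rfl⟩
      obtain ⟨Fb, hFb⟩ : ∃ Fb : Finset L, Fb =
        A.filter (fun y => y ≤ P ∧ ¬ y ≤ u ∧ ∀ d ∈ U0, ¬ y ≤ o ⊔ d) := ⟨_, rfl⟩
      have hDc : U0.card * (U0.card - 1) * D ≤ U0.card * Fa.card + (U0.card - 1) * Fb.card := by
        rw [hFa, hFb]
        convert hD c hc
      set Sa : Finset X := Finset.univ.filter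
        (fun y : X => ¬ y.1 ≤ o ⊔ c ∧ ∃ d ∈ U0, y.1 ≤ o ⊔ d) with hSa
      set Sb : Finset X := Finset.univ.filter (fun y : X => ∀ d ∈ U0, ¬ y.1 ≤ o ⊔ d) with hSb
      have ca : Fa.card ≤ Sa.card := by
        rw [← Finset.card_image_of_injective Sa Subtype.val_injective]
        refine Finset.card_le_card ?_
        intro y hy
        rw [hFa, Finset.mem_filter] at hy
        obtain ⟨h1, h2, h3, h4, h5⟩ := hy
        have h6 : y ∈ X0 := (hX y).mpr ⟨h1, h2, h3, fun e => h4 (e ▸ le_sup_left)⟩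
        exact Finset.mem_image.mpr ⟨⟨y, h6⟩, Finset.mem_filter.mpr ⟨Finset.mem_univ _, h4, h5⟩, rfl⟩
      have cb : Fb.card ≤ Sb.card := by
        rw [← Finset.card_image_of_injective Sb Subtype.val_injective]
        refine Finset.card_le_card ?_
        intro y hy
        rw [hFb, Finset.mem_filter] at hy
        obtain ⟨h1, h2, h3, h4⟩ := hy
        have h6 : y ∈ X0 := (hX y).mpr ⟨h1, h2, h3, fun e => h4 c hc (e ▸ le_sup_left)⟩
        exact Finset.mem_image.mpr ⟨⟨y, h6⟩, Finset.mem_filter.mpr ⟨Finset.mem_univ _, h4⟩, rfl⟩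
      have hdis : Disjoint Sa Sb := by
        rw [Finset.disjoint_left]
        intro y hy hy'
        obtain ⟨-, -, d, hd, h⟩ := Finset.mem_filter.mp hy
        exact (Finset.mem_filter.mp hy').2 d hd h
      have hsub : Sa ∪ Sb ⊆ Finset.univ.filter (fun y : X => c ∈ av y) := by
        intro y hy
        obtain ⟨h1, -, h3, -⟩ := (hX y.1).mp y.2
        refine Finset.mem_filter.mpr ⟨Finset.mem_univ _, (hav y c).mpr ⟨hc, fun h => ?_⟩⟩
        have h5 := (hex y.1 h1 h3 c hc).mpr h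
        rw [Finset.mem_union] at hy
        rcases hy with hy | hy
        · exact (Finset.mem_filter.mp hy).2.1 h5
        · exact (Finset.mem_filter.mp hy).2 c hc h5
      have hwa : ∀ y ∈ Sa, (1 : ℚ) / ((U0.card - 1 : ℕ) : ℚ) ≤ (1 : ℚ) / ((av y).card : ℚ) := by
        intro y hy
        obtain ⟨-, -, d, hd, h⟩ := Finset.mem_filter.mp hy
        obtain ⟨h1, -, h3, -⟩ := (hX y.1).mp y.2
        have h5 := (hex y.1 h1 h3 d hd).mp h
        have h6 : 0 < (U0.filter (fun c => o ≤ y.1 ⊔ c)).card :=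
          Finset.card_pos.mpr ⟨d, Finset.mem_filter.mpr ⟨hd, h5⟩⟩
        have h7 := hsplit y
        refine one_div_le_one_div_of_le (havpos y) ?_
        have h8 : (av y).card ≤ U0.card - 1 := by omega
        exact_mod_cast h8
      have hwb : ∀ y ∈ Sb, (1 : ℚ) / ((U0.card : ℕ) : ℚ) ≤ (1 : ℚ) / ((av y).card : ℚ) := by
        intro y _
        refine one_div_le_one_div_of_le (havpos y) ?_
        exact_mod_cast Finset.card_le_card (Finset.filter_subset _ _)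
      have hq : ((U0.card : ℕ) : ℚ) * ((U0.card - 1 : ℕ) : ℚ) * D ≤
          (U0.card : ℚ) * Sa.card + ((U0.card - 1 : ℕ) : ℚ) * Sb.card := by
        have h9 : U0.card * (U0.card - 1) * D ≤ U0.card * Sa.card + (U0.card - 1) * Sb.card :=
          hDc.trans (Nat.add_le_add (Nat.mul_le_mul_left _ ca) (Nat.mul_le_mul_left _ cb))
        exact_mod_cast h9
      have hval : (D : ℚ) ≤ (Sa.card : ℚ) * (1 / ((U0.card - 1 : ℕ) : ℚ)) +
          (Sb.card : ℚ) * (1 / ((U0.card : ℕ) : ℚ)) := by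
        have h10 : (Sa.card : ℚ) * (1 / ((U0.card - 1 : ℕ) : ℚ)) +
            (Sb.card : ℚ) * (1 / ((U0.card : ℕ) : ℚ)) =
            ((U0.card : ℚ) * Sa.card + ((U0.card - 1 : ℕ) : ℚ) * Sb.card) /
              (((U0.card : ℕ) : ℚ) * ((U0.card - 1 : ℕ) : ℚ)) := by
          field_simp
        rw [h10, le_div_iff₀ (mul_pos hK0 hK1)]
        linarith
      calc (D : ℚ) ≤ _ := hval
        _ = ∑ _y ∈ Sa, (1 : ℚ) / ((U0.card - 1 : ℕ) : ℚ) + ∑ _y ∈ Sb, (1 : ℚ) / ((U0.card : ℕ) : ℚ) := by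
            rw [Finset.sum_const, Finset.sum_const, nsmul_eq_mul, nsmul_eq_mul]
        _ ≤ ∑ y ∈ Sa, (1 : ℚ) / ((av y).card : ℚ) + ∑ y ∈ Sb, (1 : ℚ) / ((av y).card : ℚ) :=
            add_le_add (Finset.sum_le_sum hwa) (Finset.sum_le_sum hwb)
        _ = ∑ y ∈ Sa ∪ Sb, (1 : ℚ) / ((av y).card : ℚ) := (Finset.sum_union hdis).symm
        _ ≤ _ := Finset.sum_le_sum_of_subset_of_nonneg hsub (fun y _ _ => by positivity))
  refine ⟨fun y => if h : y ∈ X0 then b ⟨y, h⟩ else y, ?_, ?_, ?_⟩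
  · intro y h1 h2 h3 h4
    have hy := (hX y).mpr ⟨h1, h2, h3, h4⟩
    simp only [hy, dite_true]
    exact (hav _ _).mp (hb1 ⟨y, hy⟩)
  · intro y h1 h2 h3 h4 z k1 k2 k3 k4 e
    have hy := (hX y).mpr ⟨h1, h2, h3, h4⟩
    have hz := (hX z).mpr ⟨k1, k2, k3, k4⟩
    simp only [hy, hz, dite_true] at e
    exact congrArg Subtype.val (hb2 (a₁ := ⟨y, hy⟩) (a₂ := ⟨z, hz⟩) e)
  · intro c hc
    refine (hb3 c hc).trans ?_
    rw [← Finset.card_image_of_injective _ Subtype.val_injective]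
    refine Finset.card_le_card ?_
    intro y hy
    obtain ⟨x, hx, rfl⟩ := Finset.mem_image.mp hy
    rw [Finset.mem_filter] at hx
    obtain ⟨h1, h2, h3, h4⟩ := (hX x.1).mp x.2
    refine Finset.mem_filter.mpr ⟨h1, h2, h3, h4, ?_⟩
    have hx2 : x.1 ∈ X0 := x.2
    simp only [hx2, dite_true]
    exact hx.2

/-- **(V), numerical form.**  `K = |U0|`; `g` planes over `u` other than `P`, `Q` have two points
off `u`; for `c` in `U0`, `K (K - 1) g ≤ K a_c + (K - 1) b`, where `a_c` counts the points `y` of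
`P` off `u` and off the line `o c` on some line `o d`, `d ∈ U0`, and `b` those on no line `o d`. -/
theorem crit4_V_count {A U0 : Finset L} (hA : ∀ a ∈ A, IsAtom a)
    {u P Q o : L} (hu : rk u = 2) (hP : rk P = 3) (hQ : rk Q = 3) (huP : u ≤ P) (huQ : u ≤ Q)
    (hPQ : P ≠ Q) (hU2 : 2 ≤ U0.card) (hUA : ∀ c ∈ U0, c ∈ A ∧ c ≤ u)
    (hoA : o ∈ A) (hoP : o ≤ P) (hou : ¬ o ≤ u) (hQA : ∃ a ∈ A, a ≤ Q ∧ ¬ a ≤ u)
    (hrow : ∀ x ∈ A, ¬ x ≤ Q → ∀ c ∈ U0, ¬ o ≤ x ⊔ c → (A.filter (· ≤ x ⊔ c)).card ≤ U0.card)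
    (hcount : ∀ c ∈ U0, U0.card * (U0.card - 1) * (Grp A u P Q).card ≤
      U0.card * (A.filter (fun y => y ≤ P ∧ ¬ y ≤ u ∧ ¬ y ≤ o ⊔ c ∧ ∃ d ∈ U0, y ≤ o ⊔ d)).card +
      (U0.card - 1) * (A.filter (fun y => y ≤ P ∧ ¬ y ≤ u ∧ ∀ d ∈ U0, ¬ y ≤ o ⊔ d)).card) :
    Crit4 A := by
  classical
  have hPl : ∀ {z : L}, z ∈ A → ¬ z ≤ u → z ≤ P → u ⊔ z = P := fun {z} hz hzu hzP =>
    eq_of_le_of_rk (sup_le huP hzP) (by rw [rk_sup_atom (hA z hz) hzu, hu, hP])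
  have hQl : ∀ {z : L}, z ∈ A → ¬ z ≤ u → z ≤ Q → u ⊔ z = Q := fun {z} hz hzu hzQ =>
    eq_of_le_of_rk (sup_le huQ hzQ) (by rw [rk_sup_atom (hA z hz) hzu, hu, hQ])
  obtain ⟨β, h1, h2, h3⟩ := exists_beta hA (P := P) hu hU2 hUA hoA hou
    (fun y hy hyP hyu c hc hoy => hrow y hy
      (fun h => hPQ ((hPl hy hyu hyP).symm.trans (hQl hy hyu h))) c hc hoy)
    (Grp A u P Q).card hcount
  refine crit4_V hA hu hP hQ huP huQ hPQ hU2 hUA hoA hoP hou hQA ?_ β ?_ h2 h3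
  · intro x hx hxP hxQ c hc
    refine hrow x hx hxQ c hc (fun h => hxP ?_)
    have hcU := hUA c hc
    have hoc : o ≠ c := fun e => hou (e ▸ hcU.2)
    have hxc : x ≠ c := fun e => hxP (e ▸ hcU.2.trans huP)
    have h4 := line_of (hA o hoA) (hA c hcU.1) hoc h le_sup_right
      (rk_line (hA x hx) (hA c hcU.1) hxc)
    exact le_trans (by rw [h4]; exact le_sup_left) (sup_le hoP (hcU.2.trans huP))
  · intro y hy hyP hyu hyo
    obtain ⟨h4, h5⟩ := h1 y hy hyP hyu hyo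
    exact ⟨(hUA _ h4).1, (hUA _ h4).2, h5⟩

/-- **(V), simple form.**  `K = |U0|`, the lines through points of `U0`, not in `Q`, have at most
`K` points, and for every `c` in `U0` the plane `P` has at least `K g` points off `u` and off the
line `o c`. -/
theorem crit4_V_simple {A U0 : Finset L} (hA : ∀ a ∈ A, IsAtom a)
    {u P Q o : L} (hu : rk u = 2) (hP : rk P = 3) (hQ : rk Q = 3) (huP : u ≤ P) (huQ : u ≤ Q)
    (hPQ : P ≠ Q) (hU2 : 2 ≤ U0.card) (hUA : ∀ c ∈ U0, c ∈ A ∧ c ≤ u)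
    (hoA : o ∈ A) (hoP : o ≤ P) (hou : ¬ o ≤ u) (hQA : ∃ a ∈ A, a ≤ Q ∧ ¬ a ≤ u)
    (hrow : ∀ x ∈ A, ¬ x ≤ Q → ∀ c ∈ U0, ¬ o ≤ x ⊔ c → (A.filter (· ≤ x ⊔ c)).card ≤ U0.card)
    (hcount : ∀ c ∈ U0, U0.card * (Grp A u P Q).card ≤
      (A.filter (fun y => y ≤ P ∧ ¬ y ≤ u ∧ ¬ y ≤ o ⊔ c)).card) :
    Crit4 A := by
  classical
  refine crit4_V_count hA hu hP hQ huP huQ hPQ hU2 hUA hoA hoP hou hQA hrow ?_
  intro c hc
  have h1 := hcount c hc
  have h2 : (A.filter (fun y => y ≤ P ∧ ¬ y ≤ u ∧ ¬ y ≤ o ⊔ c)).card ≤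
      (A.filter (fun y => y ≤ P ∧ ¬ y ≤ u ∧ ¬ y ≤ o ⊔ c ∧ ∃ d ∈ U0, y ≤ o ⊔ d)).card +
      (A.filter (fun y => y ≤ P ∧ ¬ y ≤ u ∧ ∀ d ∈ U0, ¬ y ≤ o ⊔ d)).card := by
    refine le_trans (Finset.card_le_card ?_) (Finset.card_union_le _ _)
    intro y hy
    obtain ⟨k1, k2, k3, k4⟩ := Finset.mem_filter.mp hy
    rw [Finset.mem_union, Finset.mem_filter, Finset.mem_filter]
    by_cases h : ∃ d ∈ U0, y ≤ o ⊔ d
    · exact Or.inl ⟨k1, k2, k3, k4, h⟩
    · push Not at h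
      exact Or.inr ⟨k1, k2, k3, h⟩
  generalize (A.filter (fun y => y ≤ P ∧ ¬ y ≤ u ∧ ¬ y ≤ o ⊔ c ∧ ∃ d ∈ U0, y ≤ o ⊔ d)).card = a
    at h2 ⊢
  generalize (A.filter (fun y => y ≤ P ∧ ¬ y ≤ u ∧ ∀ d ∈ U0, ¬ y ≤ o ⊔ d)).card = b at h2 ⊢
  have h3 : U0.card * (Grp A u P Q).card ≤ a + b := h1.trans h2
  calc U0.card * (U0.card - 1) * (Grp A u P Q).card
      = (U0.card - 1) * (U0.card * (Grp A u P Q).card) := by ring
    _ ≤ (U0.card - 1) * (a + b) := Nat.mul_le_mul_left _ h3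
    _ = (U0.card - 1) * a + (U0.card - 1) * b := by ring
    _ ≤ U0.card * a + (U0.card - 1) * b :=
        Nat.add_le_add_right (Nat.mul_le_mul_right _ (Nat.sub_le _ _)) _

end

end Pool.Agent.Helper50.VT
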