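import Pool.Agent.Helper73.BP.ConeK

/-!
# Rank four: a plane with many rows of every colour

`u` is a line, `U0` a set of at least two points of `u`, `P` and `Q` are different planes over `u`.
Every point of `P` off `u` (except one, `o`) gets its own line through a point of `u`, so that every
point of `U0` gets at least as many of these lines as there are groups.
-/

set_option autoImplicit false
set_option linter.unusedSectionVars false

namespace Pool.Agent.Helper50.VT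

open Pool.Agent.Helper28.BPack Pool.Agent.Helper61.Motz Pool.Agent.Helper38.Thick
  Pool.Agent.Helper38.SC Pool.Agent.Helper56.BP Pool.Agent.Helper73.BP

variable {L : Type} [Lattice L] [BoundedOrder L] [Finite L] [IsUpperModularLattice L]

/-- The planes over `u` other than `P` and `Q` with at least two points of `A` off `u`. -/
def Grp [DecidableEq L] [DecidableRel (α := L) (· ≤ ·)] (A : Finset L) (u P Q : L) : Finset L :=
  ((A.filter (fun x => ¬ x ≤ u)).image (fun x => u ⊔ x)).filter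
    (fun G => G ≠ P ∧ G ≠ Q ∧ 2 ≤ (A.filter (fun z => z ≤ G ∧ ¬ z ≤ u)).card)

/-- A common point of two different planes is on the line of two other common points. -/
theorem plane_two {G H a b c : L} (hG : rk G = 3) (hH : rk H = 3) (hGH : G ≠ H)
    (ha : IsAtom a) (hb : IsAtom b) (hc : IsAtom c) (hac : a ≠ c) (aG : a ≤ G) (aH : a ≤ H)
    (cG : c ≤ G) (cH : c ≤ H) (bG : b ≤ G) (bH : b ≤ H) : b ≤ a ⊔ c := by
  by_contra h
  have h3 : rk (a ⊔ c ⊔ b) = 3 := by rw [rk_sup_atom hb h, rk_line ha hc hac]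
  have e1 : a ⊔ c ⊔ b = G := eq_of_le_of_rk (sup_le (sup_le aG cG) bG) (by rw [hG, h3])
  have e2 : a ⊔ c ⊔ b = H := eq_of_le_of_rk (sup_le (sup_le aH cH) bH) (by rw [hH, h3])
  exact hGH (e1.symm.trans e2)

/-- An injection from the smaller of two finite sets. -/
theorem exists_inj (s t : Finset L) (h : s.card ≤ t.card) :
    ∃ f : L → L, (∀ x ∈ s, f x ∈ t) ∧ ∀ x ∈ s, ∀ y ∈ s, f x = f y → x = y := by
  classical
  obtain ⟨e⟩ : Nonempty (s ↪ t) := Function.Embedding.nonempty_of_card_le (by simpa using h)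
  refine ⟨fun x => if hx : x ∈ s then (e ⟨x, hx⟩).1 else x, ?_, ?_⟩
  · intro x hx
    simp only [hx, dite_true]
    exact (e ⟨x, hx⟩).2
  · intro x hx y hy hxy
    simp only [hx, hy, dite_true] at hxy
    exact congrArg Subtype.val (e.injective (Subtype.ext hxy))

/-- The frame over a line without any further hypothesis. -/
theorem mk_frK [DecidableEq L] [DecidableRel (α := L) (· ≤ ·)] {A : Finset L}
    (hA : ∀ a ∈ A, IsAtom a) {u Q o : L} (hu : rk u = 2) (hU : 2 ≤ (A.filter (· ≤ u)).card)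
    (hQ : rk Q = 3) (huQ : u ≤ Q) (hQA : ∃ a ∈ A, a ≤ Q ∧ ¬ a ≤ u) (hoA : o ∈ A)
    (hoQ : ¬ o ≤ Q) : ∃ ρ : L → L, FrK A Q o u ρ := by
  classical
  set ρ : L → L := fun P => if o ≤ P then o else
    if h : ∃ a ∈ A, a ≤ P ∧ ¬ a ≤ Q then h.choose else o with hρ
  refine ⟨ρ, ⟨hA, hQ, hoA, hoQ, hu, huQ, hU, hQA, ?_, ?_⟩⟩
  · intro x hx hxQ
    by_cases h : o ≤ u ⊔ x
    · have e : ρ (u ⊔ x) = o := by simp only [hρ]; exact if_pos h
      rw [e]
      exact ⟨hoA, hoQ, h⟩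
    · have h2 : ∃ a ∈ A, a ≤ u ⊔ x ∧ ¬ a ≤ Q := ⟨x, hx, le_sup_right, hxQ⟩
      have e : ρ (u ⊔ x) = h2.choose := by
        simp only [hρ]
        rw [if_neg h, dif_pos h2]
      rw [e]
      exact ⟨h2.choose_spec.1, h2.choose_spec.2.2, h2.choose_spec.2.1⟩
  · simp only [hρ]
    exact if_pos le_sup_right

section

variable [DecidableEq L] [DecidableRel (α := L) (· ≤ ·)]

/-- Level one off `P` and `Q`: different rows with a point of `U0`. -/
theorem level1_off {A U0 R : Finset L} (hA : ∀ a ∈ A, IsAtom a) {u : L} {ρ : L → L}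
    (hu : rk u = 2) (hU2 : 2 ≤ U0.card) (hUA : ∀ c ∈ U0, c ∈ A ∧ c ≤ u)
    (hR : ∀ x ∈ R, x ∈ A ∧ ¬ x ≤ u ∧ IsAtom (ρ (u ⊔ x)) ∧ ρ (u ⊔ x) ≠ x)
    (hrow : ∀ x ∈ R, ∀ c ∈ U0, (A.filter (· ≤ x ⊔ c)).card ≤ U0.card) :
    ∃ c : L → L, (∀ x ∈ R, c x ∈ U0 ∧ ¬ ρ (u ⊔ x) ≤ x ⊔ c x) ∧
      (∀ x ∈ R, ∀ y ∈ R, x ⊔ c x = y ⊔ c y → x = y) := by
  classical
  obtain ⟨c, H, h1, h2, -, -⟩ := start_goodK (A := A) (R := R) (U := U0) (u := u) (ρ := ρ)
    (adj := fun k => if u ≤ k then ∅ else {k}) hA hu hU2 hUA hrow hR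
    (fun k H hH => by
      by_cases h : u ≤ k
      · simp [h] at hH
      · simp only [h, if_false, Finset.mem_singleton] at hH
        exact ⟨hH ▸ le_refl _, hH ▸ h⟩)
    (by
      intro c hc S hS
      have hcA := hUA c hc
      have hSu : ∀ k ∈ S, ¬ u ≤ k := by
        intro k hk hu'
        obtain ⟨x, hx, -, e⟩ := hS k hk
        have hxA := hR x hx
        have hxc : x ≠ c := fun e' => hxA.2.1 (e' ▸ hcA.2)
        have h3 : rk (x ⊔ c) = 2 := rk_line (hA x hxA.1) (hA c hcA.1) hxc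
        have h4 : u = x ⊔ c := eq_of_le_of_rk (e ▸ hu') (by rw [h3, hu])
        exact hxA.2.1 (h4 ▸ le_sup_left)
      have hSS : S.biUnion (fun k => if u ≤ k then ∅ else {k}) = S := by
        apply Finset.ext
        intro k
        rw [Finset.mem_biUnion]
        constructor
        · rintro ⟨l, hl, hkl⟩
          rw [if_neg (hSu l hl), Finset.mem_singleton] at hkl
          exact hkl ▸ hl
        · intro hk
          exact ⟨k, hk, by rw [if_neg (hSu k hk), Finset.mem_singleton]⟩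
      rw [hSS]
      calc (R.filter (fun x => x ⊔ c ∈ S)).card
          = ∑ k ∈ S, ((R.filter (fun x => x ⊔ c ∈ S)).filter (fun x => x ⊔ c = k)).card :=
            Finset.card_eq_sum_card_fiberwise (fun x hx => (Finset.mem_filter.mp hx).2)
        _ ≤ ∑ _k ∈ S, (U0.card - 1) := by
            refine Finset.sum_le_sum fun k hk => ?_
            obtain ⟨x0, hx0, -, h7⟩ := hS k hk
            have h8 := hrow x0 hx0 c hc
            rw [← h7] at h8
            have hsub : insert c ((R.filter (fun x => x ⊔ c ∈ S)).filter (fun x => x ⊔ c = k))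
                ⊆ A.filter (· ≤ k) := by
              intro z hz
              rw [Finset.mem_insert] at hz
              rw [Finset.mem_filter]
              rcases hz with rfl | hz
              · exact ⟨hcA.1, h7 ▸ le_sup_right⟩
              · rw [Finset.mem_filter, Finset.mem_filter] at hz
                exact ⟨(hR z hz.1.1).1, hz.2 ▸ le_sup_left⟩
            have hnot : c ∉ (R.filter (fun x => x ⊔ c ∈ S)).filter (fun x => x ⊔ c = k) := by
              intro h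
              rw [Finset.mem_filter, Finset.mem_filter] at h
              exact (hR c h.1.1).2.1 hcA.2
            have h9 := Finset.card_le_card hsub
            rw [Finset.card_insert_of_notMem hnot] at h9
            omega
        _ = (U0.card - 1) * S.card := by rw [Finset.sum_const, smul_eq_mul, mul_comm])
  exact ⟨c, h1, h2⟩

/-- **(V).**  Rank four from a plane `P` over `u` whose points off `u` (except `o`) have different
rows `y ⊔ β y`, at least `g` of them through every point of `U0`, where `g` is the number of planes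
over `u` other than `P`, `Q` with at least two points of `A` off `u`, if the lines through points
of `U0` which are not in `P` or `Q` have at most `|U0|` points. -/
theorem crit4_V {A U0 : Finset L} (hA : ∀ a ∈ A, IsAtom a)
    {u P Q o : L} (hu : rk u = 2) (hP : rk P = 3) (hQ : rk Q = 3) (huP : u ≤ P) (huQ : u ≤ Q)
    (hPQ : P ≠ Q) (hU2 : 2 ≤ U0.card) (hUA : ∀ c ∈ U0, c ∈ A ∧ c ≤ u)
    (hoA : o ∈ A) (hoP : o ≤ P) (hou : ¬ o ≤ u) (hQA : ∃ a ∈ A, a ≤ Q ∧ ¬ a ≤ u)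
    (hrow : ∀ x ∈ A, ¬ x ≤ P → ¬ x ≤ Q → ∀ c ∈ U0, (A.filter (· ≤ x ⊔ c)).card ≤ U0.card)
    (β : L → L)
    (hβ : ∀ y ∈ A, y ≤ P → ¬ y ≤ u → y ≠ o → β y ∈ A ∧ β y ≤ u ∧ ¬ o ≤ y ⊔ β y)
    (hβi : ∀ y ∈ A, y ≤ P → ¬ y ≤ u → y ≠ o → ∀ z ∈ A, z ≤ P → ¬ z ≤ u → z ≠ o →
      y ⊔ β y = z ⊔ β z → y = z)
    (hβc : ∀ c ∈ U0, (Grp A u P Q).card ≤
      (A.filter (fun y => y ≤ P ∧ ¬ y ≤ u ∧ y ≠ o ∧ β y = c)).card) :
    Crit4 A := by
  classical
  have hPl : ∀ {z : L}, z ∈ A → ¬ z ≤ u → z ≤ P → u ⊔ z = P := fun {z} hz hzu hzP =>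
    eq_of_le_of_rk (sup_le huP hzP) (by rw [rk_sup_atom (hA z hz) hzu, hu, hP])
  have hQl : ∀ {z : L}, z ∈ A → ¬ z ≤ u → z ≤ Q → u ⊔ z = Q := fun {z} hz hzu hzQ =>
    eq_of_le_of_rk (sup_le huQ hzQ) (by rw [rk_sup_atom (hA z hz) hzu, hu, hQ])
  have hoQ : ¬ o ≤ Q := fun h => hPQ ((hPl hoA hou hoP).symm.trans (hQl hoA hou h))
  obtain ⟨ρ, F⟩ := mk_frK hA hu (hU2.trans (Finset.card_le_card (fun c hc =>
    Finset.mem_filter.mpr (hUA c hc)))) hQ huQ hQA hoA hoQ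
  obtain ⟨aQ, haQ, haQQ, haQu⟩ := hQA
  have haQP : ¬ aQ ≤ P := fun h => hPQ ((hPl haQ haQu h).symm.trans (hQl haQ haQu haQQ))
  -- the injections of the groups into the rows of one colour
  have hσ : ∀ c, ∃ f : L → L, c ∈ U0 → (∀ G ∈ Grp A u P Q,
      f G ∈ A.filter (fun y => y ≤ P ∧ ¬ y ≤ u ∧ y ≠ o ∧ β y = c)) ∧
      ∀ G ∈ Grp A u P Q, ∀ G' ∈ Grp A u P Q, f G = f G' → G = G' := by
    intro c
    by_cases hc : c ∈ U0
    · obtain ⟨f, h1, h2⟩ := exists_inj _ _ (hβc c hc)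
      exact ⟨f, fun _ => ⟨h1, h2⟩⟩
    · exact ⟨id, fun h => absurd h hc⟩
  choose σ hσ using hσ
  -- the users off `P` and `Q`
  set R : Finset L := A.filter (fun x => ¬ x ≤ P ∧ ¬ x ≤ Q ∧ ρ (u ⊔ x) ≠ x) with hR
  have hRx : ∀ x ∈ R, x ∈ A ∧ ¬ x ≤ P ∧ ¬ x ≤ Q ∧ ρ (u ⊔ x) ≠ x := fun x hx =>
    Finset.mem_filter.mp hx
  obtain ⟨cc, hc1, hc2⟩ := level1_off (A := A) (U0 := U0) (R := R) (u := u) (ρ := ρ) hA hu hU2 hUA
    (fun x hx => ⟨(hRx x hx).1, F.off (hRx x hx).2.2.1,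
      hA _ (F.rho x (hRx x hx).1 (hRx x hx).2.2.1).1, (hRx x hx).2.2.2⟩)
    (fun x hx c hc => hrow x (hRx x hx).1 (hRx x hx).2.1 (hRx x hx).2.2.1 c hc)
  have hRG : ∀ x ∈ R, u ⊔ x ∈ Grp A u P Q := by
    intro x hx
    obtain ⟨h1, h2, h3, h4⟩ := hRx x hx
    obtain ⟨r1, r2, r3⟩ := F.rho x h1 h3
    refine Finset.mem_filter.mpr ⟨Finset.mem_image.mpr ⟨x, Finset.mem_filter.mpr
      ⟨h1, F.off h3⟩, rfl⟩, fun e => h2 (e ▸ le_sup_right), fun e => h3 (e ▸ le_sup_right), ?_⟩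
    have hsub : ({x, ρ (u ⊔ x)} : Finset L) ⊆ A.filter (fun z => z ≤ u ⊔ x ∧ ¬ z ≤ u) := by
      intro z hz
      rw [Finset.mem_insert, Finset.mem_singleton] at hz
      rcases hz with rfl | rfl
      · exact Finset.mem_filter.mpr ⟨h1, le_sup_right, F.off h3⟩
      · exact Finset.mem_filter.mpr ⟨r1, r3, F.off r2⟩
    have := Finset.card_le_card hsub
    rw [Finset.card_pair (Ne.symm h4)] at this
    exact this
  have hσR : ∀ x ∈ R, σ (cc x) (u ⊔ x) ∈ A ∧ σ (cc x) (u ⊔ x) ≤ P ∧ ¬ σ (cc x) (u ⊔ x) ≤ u ∧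
      σ (cc x) (u ⊔ x) ≠ o ∧ β (σ (cc x) (u ⊔ x)) = cc x := fun x hx =>
    Finset.mem_filter.mp ((hσ (cc x) (hc1 x hx).1).1 _ (hRG x hx))
  -- the points off `P`
  let gX : L → L := fun y => if h : ∃ G ∈ Grp A u P Q, β y ∈ U0 ∧ σ (β y) G = y then ρ h.choose
    else aQ
  have hgX1 : ∀ y G, G ∈ Grp A u P Q → β y ∈ U0 → σ (β y) G = y → gX y = ρ G := by
    intro y G hG hb e
    have h : ∃ G ∈ Grp A u P Q, β y ∈ U0 ∧ σ (β y) G = y := ⟨G, hG, hb, e⟩
    have e2 : gX y = ρ h.choose := dif_pos h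
    rw [e2, (hσ (β y) hb).2 _ h.choose_spec.1 G hG (h.choose_spec.2.2.trans e.symm)]
  have hGr : ∀ G ∈ Grp A u P Q, ρ G ∈ A ∧ ¬ ρ G ≤ P := by
    intro G hG
    obtain ⟨h1, h2, h3, -⟩ := Finset.mem_filter.mp hG
    obtain ⟨x, hx, rfl⟩ := Finset.mem_image.mp h1
    obtain ⟨hxA, hxu⟩ := Finset.mem_filter.mp hx
    have hxQ : ¬ x ≤ Q := fun h => h3 (hQl hxA hxu h)
    obtain ⟨r1, r2, r3⟩ := F.rho x hxA hxQ
    refine ⟨r1, fun h => h2 ?_⟩
    rw [← F.pl hxA hxu r1 (F.off r2) r3]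
    exact hPl r1 (F.off r2) h
  have hgX : ∀ y, gX y ∈ A ∧ ¬ gX y ≤ P := by
    intro y
    by_cases h : ∃ G ∈ Grp A u P Q, β y ∈ U0 ∧ σ (β y) G = y
    · have e2 : gX y = ρ h.choose := dif_pos h
      rw [e2]
      exact hGr _ h.choose_spec.1
    · have e2 : gX y = aQ := dif_neg h
      rw [e2]
      exact ⟨haQ, haQP⟩
  -- the users
  have hT : ∀ x, x ∈ NC A Q o → x ∉ RC A Q o u ρ → ¬ x ≤ P → x ∈ R := by
    intro x hx hxR hxP
    obtain ⟨h3, h4, h5⟩ := mem_NC.mp hx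
    exact Finset.mem_filter.mpr ⟨h3, hxP, h4, fun e => hxR (mem_RC.mpr ⟨h3, h4, h5, e⟩)⟩
  let yy : L → L := fun z => if z ≤ P then z else σ (cc z) (u ⊔ z)
  let γγ : L → L := fun z => if z ≤ P then gX z else z
  let gg : L → L := fun z => if z ≤ P then gX z else σ (cc z) (u ⊔ z)
  have hyP : ∀ z, z ≤ P → yy z = z := fun z h => if_pos h
  have hyN : ∀ z, ¬ z ≤ P → yy z = σ (cc z) (u ⊔ z) := fun z h => if_neg h
  have hγP : ∀ z, z ≤ P → γγ z = gX z := fun z h => if_pos h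
  have hγN : ∀ z, ¬ z ≤ P → γγ z = z := fun z h => if_neg h
  have hggP : ∀ z, z ≤ P → gg z = gX z := fun z h => if_pos h
  have hggN : ∀ z, ¬ z ≤ P → gg z = σ (cc z) (u ⊔ z) := fun z h => if_neg h
  -- (a)
  have fa : ∀ z, z ∈ NC A Q o → z ∉ RC A Q o u ρ →
      yy z ∈ A ∧ yy z ≤ P ∧ ¬ yy z ≤ u ∧ yy z ≠ o := by
    intro z hz hzR
    by_cases h : z ≤ P
    · obtain ⟨h3, h4, h5⟩ := mem_NC.mp hz
      rw [hyP z h]
      exact ⟨h3, h, F.off h4, h5⟩
    · obtain ⟨h1, h2, h3, h4, -⟩ := hσR z (hT z hz hzR h)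
      rw [hyN z h]
      exact ⟨h1, h2, h3, h4⟩
  have fb : ∀ z, z ∈ NC A Q o → γγ z ∈ A ∧ ¬ γγ z ≤ P := by
    intro z hz
    by_cases h : z ≤ P
    · rw [hγP z h]
      exact hgX z
    · rw [hγN z h]
      exact ⟨(mem_NC.mp hz).1, h⟩
  have fc : ∀ z, z ⊔ gg z = yy z ⊔ γγ z := by
    intro z
    by_cases h : z ≤ P
    · rw [hyP z h, hγP z h, hggP z h]
    · rw [hyN z h, hγN z h, hggN z h, sup_comm]
  have fm : ∀ z, z ∈ NC A Q o → z ∉ RC A Q o u ρ → ¬ z ≤ P → β (yy z) = cc z := by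
    intro z hz hzR h
    rw [hyN z h]
    exact (hσR z (hT z hz hzR h)).2.2.2.2
  let m : L → L := fun z => β (yy z)
  let Pl : L → L := fun z => yy z ⊔ β (yy z) ⊔ γγ z
  have hβy : ∀ z, z ∈ NC A Q o → z ∉ RC A Q o u ρ →
      β (yy z) ∈ A ∧ β (yy z) ≤ u ∧ ¬ o ≤ yy z ⊔ β (yy z) := by
    intro z hz hzR
    obtain ⟨h1, h2, h3, h4⟩ := fa z hz hzR
    exact hβ _ h1 h2 h3 h4
  have hyb : ∀ z, z ∈ NC A Q o → z ∉ RC A Q o u ρ → yy z ≠ β (yy z) := by
    intro z hz hzR e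
    exact (fa z hz hzR).2.2.1 (e ▸ (hβy z hz hzR).2.1)
  have hyl : ∀ z, z ∈ NC A Q o → z ∉ RC A Q o u ρ → yy z ⊔ β (yy z) ≤ P := by
    intro z hz hzR
    exact sup_le (fa z hz hzR).2.1 ((hβy z hz hzR).2.1.trans huP)
  have fd : ∀ z, z ∈ NC A Q o → z ∉ RC A Q o u ρ → rk (Pl z) = 3 := by
    intro z hz hzR
    have h1 : ¬ γγ z ≤ yy z ⊔ β (yy z) := fun h => (fb z hz).2 (h.trans (hyl z hz hzR))
    change rk (yy z ⊔ β (yy z) ⊔ γγ z) = 3
    rw [rk_sup_atom (hA _ (fb z hz).1) h1, rk_line (hA _ (fa z hz hzR).1)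
      (hA _ (hβy z hz hzR).1) (hyb z hz hzR)]
  have fPne : ∀ z, z ∈ NC A Q o → z ∉ RC A Q o u ρ → P ≠ Pl z := by
    intro z hz hzR e
    exact (fb z hz).2 (e.symm ▸ (le_sup_right : γγ z ≤ Pl z))
  have fu : ∀ z, z ∈ NC A Q o → z ∉ RC A Q o u ρ → ¬ u ≤ Pl z := by
    intro z hz hzR h
    obtain ⟨h1, h2, h3, -⟩ := fa z hz hzR
    have h4 : u ⊔ yy z = P := hPl h1 h3 h2
    have h5 : P ≤ Pl z := h4 ▸ sup_le h (le_sup_left.trans le_sup_left)
    exact fPne z hz hzR (eq_of_le_of_rk h5 (by rw [fd z hz hzR, hP]))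
  -- a point of `P` on the plane is on the row
  have fP : ∀ z, z ∈ NC A Q o → z ∉ RC A Q o u ρ → ∀ b ∈ A, b ≤ P → b ≤ Pl z →
      b ≤ yy z ⊔ β (yy z) := by
    intro z hz hzR b hb hbP hbz
    obtain ⟨h1, h2, -, -⟩ := fa z hz hzR
    obtain ⟨k1, k2, -⟩ := hβy z hz hzR
    exact plane_two hP (fd z hz hzR) (fPne z hz hzR) (hA _ h1) (hA b hb) (hA _ k1) (hyb z hz hzR)
      h2 (le_sup_left.trans le_sup_left) (k2.trans huP) (le_sup_right.trans le_sup_left) hbP hbz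
  have fo : ∀ z, z ∈ NC A Q o → z ∉ RC A Q o u ρ → ¬ o ≤ Pl z := fun z hz hzR h =>
    (hβy z hz hzR).2.2 (fP z hz hzR o hoA hoP h)
  have fz : ∀ z, z ∈ NC A Q o → z ∉ RC A Q o u ρ → z ≤ Pl z := by
    intro z hz hzR
    by_cases h : z ≤ P
    · have : yy z ≤ Pl z := le_sup_left.trans le_sup_left
      rw [hyP z h] at this
      exact this
    · have : γγ z ≤ Pl z := le_sup_right
      rw [hγN z h] at this
      exact this
  have fk : ∀ z, z ∈ NC A Q o → z ∉ RC A Q o u ρ → z ⊔ m z ≤ Pl z := fun z hz hzR =>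
    sup_le (fz z hz hzR) (le_sup_right.trans le_sup_left)
  -- the key: the planes are different
  have key0 : ∀ z, z ∈ NC A Q o → z ∉ RC A Q o u ρ → ∀ z', z' ∈ NC A Q o → z' ∉ RC A Q o u ρ →
      Pl z = Pl z' → yy z = yy z' := by
    intro z hz hzR z' hz' hzR' e
    obtain ⟨h1, h2, h3, h4⟩ := fa z hz hzR
    obtain ⟨k1, k2, k3, k4⟩ := fa z' hz' hzR'
    obtain ⟨l1, l2, -⟩ := hβy z hz hzR
    obtain ⟨n1, n2, -⟩ := hβy z' hz' hzR'
    refine hβi _ h1 h2 h3 h4 _ k1 k2 k3 k4 ?_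
    have e1 : yy z' ≤ yy z ⊔ β (yy z) := fP z hz hzR _ k1 k2
      (e ▸ (le_sup_left.trans le_sup_left : yy z' ≤ Pl z'))
    have e2 : β (yy z') ≤ yy z ⊔ β (yy z) := fP z hz hzR _ n1 (n2.trans huP)
      (e ▸ (le_sup_right.trans le_sup_left : β (yy z') ≤ Pl z'))
    exact (eq_of_le_of_rk (sup_le e1 e2) (by
      rw [rk_line (hA _ h1) (hA _ l1) (hyb z hz hzR),
        rk_line (hA _ k1) (hA _ n1) (hyb z' hz' hzR')])).symm
  -- the mixed case
  have mixed : ∀ z, z ∈ NC A Q o → z ∉ RC A Q o u ρ → ∀ z', z' ∈ NC A Q o → z' ∉ RC A Q o u ρ →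
      z ≤ P → ¬ z' ≤ P → Pl z = Pl z' → False := by
    intro z hz hzR z' hz' hzR' hzP hzP' e
    have e1 := key0 z hz hzR z' hz' hzR' e
    have hz'R := hT z' hz' hzR' hzP'
    have hb : β (yy z) = cc z' := by rw [e1]; exact fm z' hz' hzR' hzP'
    rw [hyP z hzP] at hb e1
    have hγ : γγ z = ρ (u ⊔ z') := by
      rw [hγP z hzP]
      refine hgX1 z (u ⊔ z') (hRG z' hz'R) (by rw [hb]; exact (hc1 z' hz'R).1) ?_
      rw [hb, ← hyN z' hzP']
      exact e1.symm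
    obtain ⟨h1, h2, h3, h4⟩ := hRx z' hz'R
    obtain ⟨r1, r2, r3⟩ := F.rho z' h1 h3
    have hcU := hUA _ (hc1 z' hz'R).1
    have hρH : ρ (u ⊔ z') ≤ Pl z' := by
      rw [← hγ, ← e]
      exact le_sup_right
    have hG3 : rk (u ⊔ z') = 3 := by rw [rk_sup_atom (hA z' h1) (F.off h3), hu]
    refine (hc1 z' hz'R).2 (plane_two hG3 (fd z' hz' hzR') ?_ (hA z' h1) (hA _ r1) (hA _ hcU.1)
      ?_ le_sup_right (fz z' hz' hzR') (hcU.2.trans le_sup_left) ?_ r3 hρH)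
    · intro e3
      exact fu z' hz' hzR' (e3 ▸ le_sup_left)
    · intro e3
      exact F.off h3 (e3.le.trans hcU.2)
    · rw [← fm z' hz' hzR' hzP']
      exact le_sup_right.trans le_sup_left
  have key : ∀ z, z ∈ NC A Q o → z ∉ RC A Q o u ρ → ∀ z', z' ∈ NC A Q o → z' ∉ RC A Q o u ρ →
      Pl z = Pl z' → z = z' := by
    intro z hz hzR z' hz' hzR' e
    have e1 := key0 z hz hzR z' hz' hzR' e
    by_cases hzP : z ≤ P
    · by_cases hzP' : z' ≤ P
      · rw [hyP z hzP, hyP z' hzP'] at e1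
        exact e1
      · exact (mixed z hz hzR z' hz' hzR' hzP hzP' e).elim
    · by_cases hzP' : z' ≤ P
      · exact (mixed z' hz' hzR' z hz hzR hzP' hzP e.symm).elim
      · have hx := hT z hz hzR hzP
        have hx' := hT z' hz' hzR' hzP'
        have hcc : cc z = cc z' := by
          rw [← fm z hz hzR hzP, ← fm z' hz' hzR' hzP', e1]
        rw [hyN z hzP, hyN z' hzP', hcc] at e1
        have hG : u ⊔ z = u ⊔ z' := (hσ (cc z') (hc1 z' hx').1).2 _ (hRG z hx) _ (hRG z' hx') e1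
        refine hc2 z hx z' hx' ?_
        obtain ⟨h1, h2, h3, h4⟩ := hRx z hx
        obtain ⟨k1, k2, k3, k4⟩ := hRx z' hx'
        have hcU := hUA _ (hc1 z hx).1
        have hG3 : rk (u ⊔ z) = 3 := by rw [rk_sup_atom (hA z h1) (F.off h3), hu]
        have hzc : z ≠ cc z := fun e3 => F.off h3 (e3.le.trans hcU.2)
        have hzc' : z' ≠ cc z := fun e3 => F.off k3 (e3.le.trans hcU.2)
        have h5 : z' ≤ z ⊔ cc z := by
          refine plane_two hG3 (fd z hz hzR) ?_ (hA z h1) (hA _ k1) (hA _ hcU.1)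
            hzc le_sup_right (fz z hz hzR) (hcU.2.trans le_sup_left) ?_ (hG ▸ le_sup_right)
            (e ▸ fz z' hz' hzR')
          · intro e3
            exact fu z hz hzR (e3 ▸ le_sup_left)
          · rw [← fm z hz hzR hzP]
            exact le_sup_right.trans le_sup_left
        rw [← hcc]
        exact (line_of (hA z' k1) (hA _ hcU.1) hzc' h5 le_sup_right
          (rk_line (hA z h1) (hA _ hcU.1) hzc)).symm
  refine crit4_of_mPg F (m := m) (P := Pl) (gg := gg) ?_ ?_ ?_ ?_ ?_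
  · intro z hz hzR
    obtain ⟨l1, l2, l3⟩ := hβy z hz hzR
    refine ⟨l1, l2, fun h => fo z hz hzR (le_trans h (fk z hz hzR)), ⟨fd z hz hzR, fk z hz hzR,
      fu z hz hzR, fun h => absurd h (fo z hz hzR)⟩, ?_⟩
    intro r hr h
    obtain ⟨r1, r2, r3, r4⟩ := mem_RC.mp hr
    by_cases hzP : z ≤ P
    · have h5 : r ≤ P := h.trans (sup_le hzP (l2.trans huP))
      apply F.rep_o hr
      rw [sup_comm, hPl r1 (F.off r2) h5]
      exact hoP
    · have hx := hT z hz hzR hzP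
      obtain ⟨k1, k2, k3, k4⟩ := hRx z hx
      have h6 : r ≤ u ⊔ z := h.trans (sup_le le_sup_right (l2.trans le_sup_left))
      have h7 := F.pl k1 (F.off k3) r1 (F.off r2) h6
      apply (hc1 z hx).2
      rw [← h7, r4, ← fm z hz hzR hzP]
      exact h
  · intro z hz hzR z' hz' hzR' e
    have e' : z ⊔ β (yy z) = z' ⊔ β (yy z') := e
    by_cases hzP : z ≤ P
    · have hzA := mem_NC.mp hz
      have hle : z ⊔ β (yy z) ≤ P := sup_le hzP ((hβy z hz hzR).2.1.trans huP)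
      have hzP' : z' ≤ P := le_trans (by rw [e']; exact le_sup_left) hle
      have hzA' := mem_NC.mp hz'
      rw [hyP z hzP, hyP z' hzP'] at e'
      exact hβi z hzA.1 hzP (F.off hzA.2.1) hzA.2.2 z' hzA'.1 hzP' (F.off hzA'.2.1) hzA'.2.2 e'
    · by_cases hzP' : z' ≤ P
      · have hle : z' ⊔ β (yy z') ≤ P := sup_le hzP' ((hβy z' hz' hzR').2.1.trans huP)
        exact absurd (le_trans (by rw [← e']; exact le_sup_left) hle) hzP
      · rw [fm z hz hzR hzP, fm z' hz' hzR' hzP'] at e'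
        exact hc2 z (hT z hz hzR hzP) z' (hT z' hz' hzR' hzP') e'
  · intro z hz hzR z' hz' hzR' e
    exact key z hz hzR z' hz' hzR' e
  · intro z hz hzR
    obtain ⟨l1, l2, l3⟩ := hβy z hz hzR
    by_cases hzP : z ≤ P
    · refine ⟨hggP z hzP ▸ (hgX z).1, ?_, ?_⟩
      · rw [hggP z hzP, ← hγP z hzP]
        exact le_sup_right
      · intro h
        rw [hggP z hzP] at h
        exact (hgX z).2 (h.trans (sup_le hzP (l2.trans huP)))
    · have hx := hT z hz hzR hzP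
      obtain ⟨n1, n2, n3, n4, n5⟩ := hσR z hx
      obtain ⟨k1, k2, k3, k4⟩ := hRx z hx
      refine ⟨hggN z hzP ▸ n1, ?_, ?_⟩
      · rw [hggN z hzP, ← hyN z hzP]
        exact le_sup_left.trans le_sup_left
      · intro h
        have h' : σ (cc z) (u ⊔ z) ≤ z ⊔ β (yy z) := by rw [← hggN z hzP]; exact h
        have hzb : z ≠ β (yy z) := fun e3 => hzP (e3.le.trans (l2.trans huP))
        have hnb : σ (cc z) (u ⊔ z) ≠ β (yy z) := fun e3 => n3 (e3.le.trans l2)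
        have e4 := line_of (hA _ n1) (hA _ l1) hnb h' le_sup_right (rk_line (hA z k1) (hA _ l1) hzb)
        exact hzP (le_trans (by rw [e4]; exact le_sup_left) (sup_le n2 (l2.trans huP)))
  · intro z hz hzR z' hz' hzR' e
    rw [fc z, fc z'] at e
    obtain ⟨h1, h2, h3, h4⟩ := fa z hz hzR
    obtain ⟨k1, k2, k3, k4⟩ := fa z' hz' hzR'
    obtain ⟨g1, g2⟩ := fb z hz
    obtain ⟨g1', g2'⟩ := fb z' hz'
    have hyg : yy z ≠ γγ z := fun e3 => g2 (e3 ▸ h2)
    have hyy : yy z = yy z' := by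
      by_contra hne
      have h5 : yy z ⊔ yy z' = yy z ⊔ γγ z := line_of (hA _ h1) (hA _ k1) hne le_sup_left
        (by rw [e]; exact le_sup_left) (rk_line (hA _ h1) (hA _ g1) hyg)
      exact g2 (le_trans (by rw [h5]; exact le_sup_right) (sup_le h2 k2))
    have h6 : γγ z' ≤ yy z ⊔ γγ z := by rw [e]; exact le_sup_right
    have h7 : Pl z' ≤ Pl z := by
      change yy z' ⊔ β (yy z') ⊔ γγ z' ≤ yy z ⊔ β (yy z) ⊔ γγ z
      rw [← hyy]
      exact sup_le le_sup_left (h6.trans (sup_le (le_sup_left.trans le_sup_left) le_sup_right))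
    exact (key z' hz' hzR' z hz hzR (eq_of_le_of_rk h7 (by
      rw [fd z hz hzR, fd z' hz' hzR']))).symm

end

end Pool.Agent.Helper50.VT
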