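import Pool.Agent.Helper73.BP.ConeK
import Pool.Agent.Helper50.VT.V

/-!
# Rank four: one map from the points off `Q` to the points of `u`

`u` is a line, `P` and `Q` are different planes over `u`.  Every plane `G` over `u` other than `Q`
has a point `r G` off `u`; every other point `x` off `Q` has a point `m x` on `u`; the lines
`x ⊔ m x` are different and do not contain the point `r G` of their plane.  If for every point `c`
of `u` the plane `P` has at least as many points `y` with `m y = c` as there are other planes over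
`u` with such a point, then there is a packing.
-/

set_option autoImplicit false
set_option linter.unusedSectionVars false

namespace Pool.Agent.Helper50.VT

open Pool.Agent.Helper28.BPack Pool.Agent.Helper61.Motz Pool.Agent.Helper38.Thick
  Pool.Agent.Helper38.SC Pool.Agent.Helper56.BP Pool.Agent.Helper73.BP

variable {L : Type} [Lattice L] [BoundedOrder L] [Finite L] [IsUpperModularLattice L]

section

variable [DecidableEq L] [DecidableRel (α := L) (· ≤ ·)]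

/-- **(Vm).** -/
theorem crit4_Vm {A : Finset L} (hA : ∀ a ∈ A, IsAtom a)
    {u P Q : L} (hu : rk u = 2) (hU2 : 2 ≤ (A.filter (· ≤ u)).card)
    (hP : rk P = 3) (hQ : rk Q = 3) (huP : u ≤ P) (huQ : u ≤ Q)
    (hPQ : P ≠ Q) (hPA : ∃ a ∈ A, a ≤ P ∧ ¬ a ≤ u) (hQA : ∃ a ∈ A, a ≤ Q ∧ ¬ a ≤ u)
    (r m : L → L)
    (hr : ∀ x ∈ A, ¬ x ≤ Q → r (u ⊔ x) ∈ A ∧ ¬ r (u ⊔ x) ≤ u ∧ r (u ⊔ x) ≤ u ⊔ x)
    (hm : ∀ x ∈ A, ¬ x ≤ Q → r (u ⊔ x) ≠ x → m x ∈ A ∧ m x ≤ u ∧ ¬ r (u ⊔ x) ≤ x ⊔ m x)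
    (hinj : ∀ x ∈ A, ¬ x ≤ Q → r (u ⊔ x) ≠ x → ∀ y ∈ A, ¬ y ≤ Q → r (u ⊔ y) ≠ y →
      x ⊔ m x = y ⊔ m y → x = y)
    (hcount : ∀ c ∈ A, c ≤ u →
      ((A.filter (fun x => ¬ x ≤ P ∧ ¬ x ≤ Q ∧ r (u ⊔ x) ≠ x ∧ m x = c)).image
        (fun x => u ⊔ x)).card ≤
      (A.filter (fun y => y ≤ P ∧ ¬ y ≤ Q ∧ r P ≠ y ∧ m y = c)).card) :
    Crit4 A := by
  classical
  have hPl : ∀ {z : L}, z ∈ A → ¬ z ≤ u → z ≤ P → u ⊔ z = P := fun {z} hz hzu hzP =>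
    eq_of_le_of_rk (sup_le huP hzP) (by rw [rk_sup_atom (hA z hz) hzu, hu, hP])
  have hQl : ∀ {z : L}, z ∈ A → ¬ z ≤ u → z ≤ Q → u ⊔ z = Q := fun {z} hz hzu hzQ =>
    eq_of_le_of_rk (sup_le huQ hzQ) (by rw [rk_sup_atom (hA z hz) hzu, hu, hQ])
  obtain ⟨aP, haP, haPP, haPu⟩ := hPA
  have haPQ : ¬ aP ≤ Q := fun h => hPQ ((hPl haP haPu haPP).symm.trans (hQl haP haPu h))
  have hPP : u ⊔ aP = P := hPl haP haPu haPP
  obtain ⟨hoA, hou, hoP⟩ := hr aP haP haPQ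
  rw [hPP] at hoA hou hoP
  obtain ⟨o, ho⟩ : ∃ o, o = r P := ⟨_, rfl⟩
  rw [← ho] at hoA hou hoP
  have hoQ : ¬ o ≤ Q := fun h => hPQ ((hPl hoA hou hoP).symm.trans (hQl hoA hou h))
  have hrQ : ∀ x ∈ A, ¬ x ≤ Q → ¬ r (u ⊔ x) ≤ Q := by
    intro x hx hxQ h
    obtain ⟨h1, h2, h3⟩ := hr x hx hxQ
    have hxu : ¬ x ≤ u := fun h' => hxQ (h'.trans huQ)
    have h4 : u ⊔ r (u ⊔ x) = u ⊔ x := eq_of_le_of_rk (sup_le le_sup_left h3) (by
      rw [rk_sup_atom (hA x hx) hxu, rk_sup_atom (hA _ h1) h2])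
    exact hxQ (le_trans (by rw [h4]; exact le_sup_right : x ≤ u ⊔ r (u ⊔ x)) (sup_le huQ h))
  have F : FrK A Q o u r := ⟨hA, hQ, hoA, hoQ, hu, huQ, hU2, hQA,
    fun x hx hxQ => ⟨(hr x hx hxQ).1, hrQ x hx hxQ, (hr x hx hxQ).2.2⟩,
    by rw [hPl hoA hou hoP, ← ho]⟩
  obtain ⟨aQ, haQ, haQQ, haQu⟩ := hQA
  have haQP : ¬ aQ ≤ P := fun h => hPQ ((hPl haQ haQu h).symm.trans (hQl haQ haQu haQQ))
  -- the users
  have hRC : ∀ x, x ∈ NC A Q o → x ∉ RC A Q o u r → x ∈ A ∧ ¬ x ≤ Q ∧ x ≠ o ∧ r (u ⊔ x) ≠ x := by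
    intro x hx hxR
    obtain ⟨h3, h4, h5⟩ := mem_NC.mp hx
    exact ⟨h3, h4, h5, fun e => hxR (mem_RC.mpr ⟨h3, h4, h5, e⟩)⟩
  -- the injections of the groups into the users on `P`
  set GG : L → Finset L := fun c =>
    (A.filter (fun x => ¬ x ≤ P ∧ ¬ x ≤ Q ∧ r (u ⊔ x) ≠ x ∧ m x = c)).image (fun x => u ⊔ x)
    with hGG
  set VV : L → Finset L := fun c => A.filter (fun y => y ≤ P ∧ ¬ y ≤ Q ∧ r P ≠ y ∧ m y = c)
    with hVV
  have hσ : ∀ c, ∃ f : L → L, c ∈ A → c ≤ u → (∀ G ∈ GG c, f G ∈ VV c) ∧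
      ∀ G ∈ GG c, ∀ G' ∈ GG c, f G = f G' → G = G' := by
    intro c
    by_cases hc : c ∈ A ∧ c ≤ u
    · obtain ⟨f, h1, h2⟩ := exists_inj _ _ (hcount c hc.1 hc.2)
      exact ⟨f, fun _ _ => ⟨h1, h2⟩⟩
    · exact ⟨id, fun h h' => absurd ⟨h, h'⟩ hc⟩
  choose σ hσ using hσ
  have hGm : ∀ x ∈ A, ¬ x ≤ P → ¬ x ≤ Q → r (u ⊔ x) ≠ x → u ⊔ x ∈ GG (m x) := by
    intro x hx hxP hxQ hxr
    exact Finset.mem_image.mpr ⟨x, Finset.mem_filter.mpr ⟨hx, hxP, hxQ, hxr, rfl⟩, rfl⟩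
  have hσV : ∀ x ∈ A, ¬ x ≤ P → ¬ x ≤ Q → r (u ⊔ x) ≠ x →
      σ (m x) (u ⊔ x) ∈ A ∧ σ (m x) (u ⊔ x) ≤ P ∧ ¬ σ (m x) (u ⊔ x) ≤ Q ∧
      r P ≠ σ (m x) (u ⊔ x) ∧ m (σ (m x) (u ⊔ x)) = m x := by
    intro x hx hxP hxQ hxr
    obtain ⟨h1, h2, -⟩ := hm x hx hxQ hxr
    exact Finset.mem_filter.mp ((hσ (m x) h1 h2).1 _ (hGm x hx hxP hxQ hxr))
  -- the points off `P`
  let gX : L → L := fun y => if h : ∃ G ∈ GG (m y), σ (m y) G = y then r h.choose else aQ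
  have hgX1 : ∀ y ∈ A, ¬ y ≤ Q → r (u ⊔ y) ≠ y → ∀ G ∈ GG (m y), σ (m y) G = y →
      gX y = r G := by
    intro y hy hyQ hyr G hG e
    obtain ⟨n1, n2, -⟩ := hm y hy hyQ hyr
    have h : ∃ G ∈ GG (m y), σ (m y) G = y := ⟨G, hG, e⟩
    have e2 : gX y = r h.choose := dif_pos h
    rw [e2, (hσ (m y) n1 n2).2 _ h.choose_spec.1 G hG (h.choose_spec.2.trans e.symm)]
  have hGr : ∀ c, ∀ G ∈ GG c, r G ∈ A ∧ ¬ r G ≤ P := by
    intro c G hG
    obtain ⟨x, hx, rfl⟩ := Finset.mem_image.mp hG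
    obtain ⟨hxA, hxP, hxQ, -, -⟩ := Finset.mem_filter.mp hx
    obtain ⟨r1, r2, r3⟩ := hr x hxA hxQ
    have hxu : ¬ x ≤ u := F.off hxQ
    refine ⟨r1, fun h => hxP ?_⟩
    have h4 : u ⊔ r (u ⊔ x) = u ⊔ x := F.pl hxA hxu r1 r2 r3
    exact le_trans (by rw [h4]; exact le_sup_right : x ≤ u ⊔ r (u ⊔ x)) (sup_le huP h)
  have hgX : ∀ y, gX y ∈ A ∧ ¬ gX y ≤ P := by
    intro y
    by_cases h : ∃ G ∈ GG (m y), σ (m y) G = y
    · have e2 : gX y = r h.choose := dif_pos h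
      rw [e2]
      exact hGr _ _ h.choose_spec.1
    · have e2 : gX y = aQ := dif_neg h
      rw [e2]
      exact ⟨haQ, haQP⟩
  let yy : L → L := fun z => if z ≤ P then z else σ (m z) (u ⊔ z)
  let γγ : L → L := fun z => if z ≤ P then gX z else z
  let gg : L → L := fun z => if z ≤ P then gX z else σ (m z) (u ⊔ z)
  have hyP : ∀ z, z ≤ P → yy z = z := fun z h => if_pos h
  have hyN : ∀ z, ¬ z ≤ P → yy z = σ (m z) (u ⊔ z) := fun z h => if_neg h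
  have hγP : ∀ z, z ≤ P → γγ z = gX z := fun z h => if_pos h
  have hγN : ∀ z, ¬ z ≤ P → γγ z = z := fun z h => if_neg h
  have hggP : ∀ z, z ≤ P → gg z = gX z := fun z h => if_pos h
  have hggN : ∀ z, ¬ z ≤ P → gg z = σ (m z) (u ⊔ z) := fun z h => if_neg h
  have hrP : ∀ z, z ∈ A → z ≤ P → ¬ z ≤ Q → r (u ⊔ z) = o := by
    intro z hz hzP hzQ
    rw [hPl hz (F.off hzQ) hzP, ho]
  -- the users on `P`
  have fa : ∀ z, z ∈ NC A Q o → z ∉ RC A Q o u r →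
      yy z ∈ A ∧ yy z ≤ P ∧ ¬ yy z ≤ Q ∧ r (u ⊔ yy z) ≠ yy z ∧ m (yy z) = m z := by
    intro z hz hzR
    obtain ⟨h3, h4, h5, h6⟩ := hRC z hz hzR
    by_cases h : z ≤ P
    · rw [hyP z h]
      exact ⟨h3, h, h4, h6, rfl⟩
    · obtain ⟨k1, k2, k3, k4, k5⟩ := hσV z h3 h h4 h6
      rw [hyN z h]
      refine ⟨k1, k2, k3, ?_, k5⟩
      rw [hPl k1 (F.off k3) k2]
      exact k4
  have fb : ∀ z, z ∈ NC A Q o → γγ z ∈ A ∧ ¬ γγ z ≤ P := by
    intro z hz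
    by_cases h : z ≤ P
    · rw [hγP z h]
      exact hgX z
    · rw [hγN z h]
      exact ⟨(mem_NC.mp hz).1, h⟩
  have fc : ∀ z, z ⊔ gg z = yy z ⊔ γγ z := by
    intro z
    by_cases h : z ≤ P
    · rw [hyP z h, hγP z h, hggP z h]
    · rw [hyN z h, hγN z h, hggN z h, sup_comm]
  let Pl : L → L := fun z => yy z ⊔ m z ⊔ γγ z
  have hβy : ∀ z, z ∈ NC A Q o → z ∉ RC A Q o u r → m z ∈ A ∧ m z ≤ u ∧ ¬ o ≤ yy z ⊔ m z := by
    intro z hz hzR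
    obtain ⟨h1, h2, h3, h4, h5⟩ := fa z hz hzR
    obtain ⟨n1, n2, n3⟩ := hm (yy z) h1 h3 h4
    rw [h5] at n1 n2 n3
    rw [hrP _ h1 h2 h3] at n3
    exact ⟨n1, n2, n3⟩
  have hyb : ∀ z, z ∈ NC A Q o → z ∉ RC A Q o u r → yy z ≠ m z := by
    intro z hz hzR e
    exact F.off (fa z hz hzR).2.2.1 (e ▸ (hβy z hz hzR).2.1)
  have hyl : ∀ z, z ∈ NC A Q o → z ∉ RC A Q o u r → yy z ⊔ m z ≤ P := by
    intro z hz hzR
    exact sup_le (fa z hz hzR).2.1 ((hβy z hz hzR).2.1.trans huP)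
  have fd : ∀ z, z ∈ NC A Q o → z ∉ RC A Q o u r → rk (Pl z) = 3 := by
    intro z hz hzR
    have h1 : ¬ γγ z ≤ yy z ⊔ m z := fun h => (fb z hz).2 (h.trans (hyl z hz hzR))
    change rk (yy z ⊔ m z ⊔ γγ z) = 3
    rw [rk_sup_atom (hA _ (fb z hz).1) h1, rk_line (hA _ (fa z hz hzR).1)
      (hA _ (hβy z hz hzR).1) (hyb z hz hzR)]
  have fPne : ∀ z, z ∈ NC A Q o → z ∉ RC A Q o u r → P ≠ Pl z := by
    intro z hz hzR e
    exact (fb z hz).2 (e.symm ▸ (le_sup_right : γγ z ≤ Pl z))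
  have fu : ∀ z, z ∈ NC A Q o → z ∉ RC A Q o u r → ¬ u ≤ Pl z := by
    intro z hz hzR h
    obtain ⟨h1, h2, h3, -⟩ := fa z hz hzR
    have h4 : u ⊔ yy z = P := hPl h1 (F.off h3) h2
    have h5 : P ≤ Pl z := h4 ▸ sup_le h (le_sup_left.trans le_sup_left)
    exact fPne z hz hzR (eq_of_le_of_rk h5 (by rw [fd z hz hzR, hP]))
  -- a point of `P` on the plane is on the row
  have fP : ∀ z, z ∈ NC A Q o → z ∉ RC A Q o u r → ∀ b ∈ A, b ≤ P → b ≤ Pl z →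
      b ≤ yy z ⊔ m z := by
    intro z hz hzR b hb hbP hbz
    obtain ⟨h1, h2, -, -⟩ := fa z hz hzR
    obtain ⟨k1, k2, -⟩ := hβy z hz hzR
    exact plane_two hP (fd z hz hzR) (fPne z hz hzR) (hA _ h1) (hA b hb) (hA _ k1) (hyb z hz hzR)
      h2 (le_sup_left.trans le_sup_left) (k2.trans huP) (le_sup_right.trans le_sup_left) hbP hbz
  have fo : ∀ z, z ∈ NC A Q o → z ∉ RC A Q o u r → ¬ o ≤ Pl z := fun z hz hzR h =>
    (hβy z hz hzR).2.2 (fP z hz hzR o hoA hoP h)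
  have fz : ∀ z, z ∈ NC A Q o → z ∉ RC A Q o u r → z ≤ Pl z := by
    intro z hz hzR
    by_cases h : z ≤ P
    · have : yy z ≤ Pl z := le_sup_left.trans le_sup_left
      rw [hyP z h] at this
      exact this
    · have : γγ z ≤ Pl z := le_sup_right
      rw [hγN z h] at this
      exact this
  have fmz : ∀ z, m z ≤ Pl z := fun z => le_sup_right.trans le_sup_left
  have fk : ∀ z, z ∈ NC A Q o → z ∉ RC A Q o u r → z ⊔ m z ≤ Pl z := fun z hz hzR =>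
    sup_le (fz z hz hzR) (fmz z)
  have key0 : ∀ z, z ∈ NC A Q o → z ∉ RC A Q o u r → ∀ z', z' ∈ NC A Q o → z' ∉ RC A Q o u r →
      Pl z = Pl z' → yy z = yy z' := by
    intro z hz hzR z' hz' hzR' e
    obtain ⟨h1, h2, h3, h4, h5⟩ := fa z hz hzR
    obtain ⟨k1, k2, k3, k4, k5⟩ := fa z' hz' hzR'
    obtain ⟨l1, l2, -⟩ := hβy z hz hzR
    obtain ⟨n1, n2, -⟩ := hβy z' hz' hzR'
    refine hinj _ h1 h3 h4 _ k1 k3 k4 ?_
    rw [h5, k5]
    have e1 : yy z' ≤ yy z ⊔ m z := fP z hz hzR _ k1 k2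
      (e ▸ (le_sup_left.trans le_sup_left : yy z' ≤ Pl z'))
    have e2 : m z' ≤ yy z ⊔ m z := fP z hz hzR _ n1 (n2.trans huP) (e ▸ fmz z')
    exact (eq_of_le_of_rk (sup_le e1 e2) (by
      rw [rk_line (hA _ h1) (hA _ l1) (hyb z hz hzR),
        rk_line (hA _ k1) (hA _ n1) (hyb z' hz' hzR')])).symm
  -- the mixed case
  have mixed : ∀ z, z ∈ NC A Q o → z ∉ RC A Q o u r → ∀ z', z' ∈ NC A Q o → z' ∉ RC A Q o u r →
      z ≤ P → ¬ z' ≤ P → Pl z = Pl z' → False := by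
    intro z hz hzR z' hz' hzR' hzP hzP' e
    have e1 := key0 z hz hzR z' hz' hzR' e
    have hmm : m z = m z' := by
      rw [← (fa z hz hzR).2.2.2.2, e1]
      exact (fa z' hz' hzR').2.2.2.2
    obtain ⟨h1, h2, -, h4⟩ := hRC z' hz' hzR'
    obtain ⟨k1, k2, -, k4⟩ := hRC z hz hzR
    rw [hyP z hzP] at e1
    have hG := hGm z' h1 hzP' h2 h4
    have hγ : γγ z = r (u ⊔ z') := by
      rw [hγP z hzP]
      refine hgX1 z k1 k2 k4 (u ⊔ z') (hmm ▸ hG) ?_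
      rw [hmm, ← hyN z' hzP']
      exact e1.symm
    obtain ⟨r1, r2, r3⟩ := hr z' h1 h2
    obtain ⟨n1, n2, n3⟩ := hm z' h1 h2 h4
    have hρH : r (u ⊔ z') ≤ Pl z' := by
      rw [← hγ, ← e]
      exact le_sup_right
    have hG3 : rk (u ⊔ z') = 3 := by rw [rk_sup_atom (hA z' h1) (F.off h2), hu]
    refine n3 (plane_two hG3 (fd z' hz' hzR') ?_ (hA z' h1) (hA _ r1) (hA _ n1)
      ?_ le_sup_right (fz z' hz' hzR') (n2.trans le_sup_left) (fmz z') r3 hρH)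
    · intro e3
      exact fu z' hz' hzR' (e3 ▸ le_sup_left)
    · intro e3
      exact F.off h2 (e3.le.trans n2)
  have key : ∀ z, z ∈ NC A Q o → z ∉ RC A Q o u r → ∀ z', z' ∈ NC A Q o → z' ∉ RC A Q o u r →
      Pl z = Pl z' → z = z' := by
    intro z hz hzR z' hz' hzR' e
    have e1 := key0 z hz hzR z' hz' hzR' e
    by_cases hzP : z ≤ P
    · by_cases hzP' : z' ≤ P
      · rw [hyP z hzP, hyP z' hzP'] at e1
        exact e1
      · exact (mixed z hz hzR z' hz' hzR' hzP hzP' e).elim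
    · by_cases hzP' : z' ≤ P
      · exact (mixed z' hz' hzR' z hz hzR hzP' hzP e.symm).elim
      · obtain ⟨h1, h2, -, h4⟩ := hRC z hz hzR
        obtain ⟨k1, k2, -, k4⟩ := hRC z' hz' hzR'
        have hmm : m z = m z' := by
          rw [← (fa z hz hzR).2.2.2.2, e1]
          exact (fa z' hz' hzR').2.2.2.2
        obtain ⟨n1, n2, n3⟩ := hm z h1 h2 h4
        have hG1 := hGm z h1 hzP h2 h4
        have hG2 := hGm z' k1 hzP' k2 k4
        rw [← hmm] at hG2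
        rw [hyN z hzP, hyN z' hzP', ← hmm] at e1
        have hG : u ⊔ z = u ⊔ z' := (hσ (m z) n1 n2).2 _ hG1 _ hG2 e1
        refine hinj z h1 h2 h4 z' k1 k2 k4 ?_
        have hG3 : rk (u ⊔ z) = 3 := by rw [rk_sup_atom (hA z h1) (F.off h2), hu]
        have hzc : z ≠ m z := fun e3 => F.off h2 (e3.le.trans n2)
        have hzc' : z' ≠ m z := fun e3 => F.off k2 (e3.le.trans n2)
        have h5 : z' ≤ z ⊔ m z := by
          refine plane_two hG3 (fd z hz hzR) ?_ (hA z h1) (hA _ k1) (hA _ n1)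
            hzc le_sup_right (fz z hz hzR) (n2.trans le_sup_left) (fmz z) (hG ▸ le_sup_right)
            (e ▸ fz z' hz' hzR')
          intro e3
          exact fu z hz hzR (e3 ▸ le_sup_left)
        rw [← hmm]
        exact (line_of (hA z' k1) (hA _ n1) hzc' h5 le_sup_right
          (rk_line (hA z h1) (hA _ n1) hzc)).symm
  refine crit4_of_mPg F (m := m) (P := Pl) (gg := gg) ?_ ?_ ?_ ?_ ?_
  · intro z hz hzR
    obtain ⟨l1, l2, l3⟩ := hβy z hz hzR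
    obtain ⟨h1, h2, -, h4⟩ := hRC z hz hzR
    refine ⟨l1, l2, fun h => fo z hz hzR (le_trans h (fk z hz hzR)), ⟨fd z hz hzR, fk z hz hzR,
      fu z hz hzR, fun h => absurd h (fo z hz hzR)⟩, ?_⟩
    intro s hs h
    obtain ⟨r1, r2, r3, r4⟩ := mem_RC.mp hs
    have h6 : s ≤ u ⊔ z := h.trans (sup_le le_sup_right (l2.trans le_sup_left))
    have h7 := F.pl h1 (F.off h2) r1 (F.off r2) h6
    apply (hm z h1 h2 h4).2.2
    rw [← h7, r4]
    exact h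
  · intro z hz hzR z' hz' hzR' e
    obtain ⟨h1, h2, -, h4⟩ := hRC z hz hzR
    obtain ⟨k1, k2, -, k4⟩ := hRC z' hz' hzR'
    exact hinj z h1 h2 h4 z' k1 k2 k4 e
  · intro z hz hzR z' hz' hzR' e
    exact key z hz hzR z' hz' hzR' e
  · intro z hz hzR
    obtain ⟨l1, l2, l3⟩ := hβy z hz hzR
    obtain ⟨h1, h2, -, h4⟩ := hRC z hz hzR
    by_cases hzP : z ≤ P
    · refine ⟨hggP z hzP ▸ (hgX z).1, ?_, ?_⟩
      · rw [hggP z hzP, ← hγP z hzP]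
        exact le_sup_right
      · intro h
        rw [hggP z hzP] at h
        exact (hgX z).2 (h.trans (sup_le hzP (l2.trans huP)))
    · obtain ⟨n1, n2, n3, n4, n5⟩ := hσV z h1 hzP h2 h4
      refine ⟨hggN z hzP ▸ n1, ?_, ?_⟩
      · rw [hggN z hzP, ← hyN z hzP]
        exact le_sup_left.trans le_sup_left
      · intro h
        have h' : σ (m z) (u ⊔ z) ≤ z ⊔ m z := by rw [← hggN z hzP]; exact h
        have hzb : z ≠ m z := fun e3 => hzP (e3.le.trans (l2.trans huP))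
        have hnb : σ (m z) (u ⊔ z) ≠ m z := fun e3 => F.off n3 (e3.le.trans l2)
        have e4 := line_of (hA _ n1) (hA _ l1) hnb h' le_sup_right
          (rk_line (hA z h1) (hA _ l1) hzb)
        exact hzP (le_trans (by rw [e4]; exact le_sup_left) (sup_le n2 (l2.trans huP)))
  · intro z hz hzR z' hz' hzR' e
    rw [fc z, fc z'] at e
    obtain ⟨h1, h2, h3, h4, h5⟩ := fa z hz hzR
    obtain ⟨k1, k2, k3, k4, k5⟩ := fa z' hz' hzR'
    obtain ⟨g1, g2⟩ := fb z hz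
    obtain ⟨g1', g2'⟩ := fb z' hz'
    have hyg : yy z ≠ γγ z := fun e3 => g2 (e3 ▸ h2)
    have hyy : yy z = yy z' := by
      by_contra hne
      have h6 : yy z ⊔ yy z' = yy z ⊔ γγ z := line_of (hA _ h1) (hA _ k1) hne le_sup_left
        (by rw [e]; exact le_sup_left) (rk_line (hA _ h1) (hA _ g1) hyg)
      exact g2 (le_trans (by rw [h6]; exact le_sup_right) (sup_le h2 k2))
    have hmm : m z = m z' := by rw [← h5, hyy, k5]
    have h6 : γγ z' ≤ yy z ⊔ γγ z := by rw [e]; exact le_sup_right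
    have h7 : Pl z' ≤ Pl z := by
      change yy z' ⊔ m z' ⊔ γγ z' ≤ yy z ⊔ m z ⊔ γγ z
      rw [← hyy, ← hmm]
      exact sup_le le_sup_left (h6.trans (sup_le (le_sup_left.trans le_sup_left) le_sup_right))
    exact (key z' hz' hzR' z hz hzR (eq_of_le_of_rk h7 (by
      rw [fd z hz hzR, fd z' hz' hzR']))).symm

end

end Pool.Agent.Helper50.VT
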